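import Mathlib

/-! Section 0.1 of project RN (MP_8a9ebc_co): the planar identity behind the Segre-Ball system. -/

open Finset Polynomial

namespace Helper3.RN

variable {K : Type*} [Field K] [Fintype K] [DecidableEq K] {ι : Type*} [DecidableEq ι]

/-- Wilson: the product of all differences to a fixed element of a finite field. -/
lemma prod_sub_erase (z : K) : ∏ w ∈ (univ : Finset K).erase z, (z - w) = -1 := by
  have h1 : ∏ w ∈ (univ : Finset K).erase z, (z - w) = ∏ u ∈ (univ : Finset K).erase 0, u := by
    refine Finset.prod_bij (fun w _ => z - w) ?_ ?_ ?_ ?_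
    · intro w hw
      simp only [mem_erase, mem_univ, and_true] at hw ⊢
      exact sub_ne_zero.2 (Ne.symm hw)
    · intro a _ b _ h
      exact sub_right_injective h
    · intro b hb
      refine ⟨z - b, ?_, by ring⟩
      simp only [mem_erase, mem_univ, and_true] at hb ⊢
      intro h
      exact hb (by linear_combination -h)
    · intro a _
      rfl
  have h2 : ∏ u ∈ (univ : Finset K).erase 0, u = ∏ u : Kˣ, (u : K) := by
    refine Finset.prod_bij' (fun u hu => Units.mk0 u (by simpa using hu)) (fun u _ => (u : K))
      ?_ ?_ ?_ ?_ ?_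
    · intro a _; exact mem_univ _
    · intro a _; simp
    · intro a _; simp
    · intro a _; ext; simp
    · intro a _; simp
  have h3 := FiniteField.prod_univ_units_id_eq_neg_one (K := K)
  rw [h1, h2, ← Units.coe_prod, h3]
  simp

/-- Lagrange interpolation with squared weights over a finite field. -/
lemma sum_affine (E : Finset ι) (z : ι → K) (hz : Set.InjOn z (E : Set ι)) (P : K[X])
    (hP : P.natDegree + Fintype.card K + 2 ≤ 2 * E.card) :
    ∑ e ∈ E, P.eval (z e) * ((∏ e' ∈ E.erase e, (z e - z e'))⁻¹) ^ 2 = 0 := by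
  classical
  set Z : Finset K := E.image z with hZ
  have hcard : Z.card = E.card := Finset.card_image_of_injOn hz
  set g : K[X] := ∏ w ∈ univ \ Z, (X - C w) with hg
  have hgdeg : g.natDegree = Fintype.card K - E.card := by
    rw [hg, Polynomial.natDegree_prod_of_monic _ _ (fun w _ => monic_X_sub_C w)]
    simp [Finset.card_sdiff_of_subset (subset_univ Z), hcard, Finset.card_univ]
  have hgm : g ≠ 0 := (Polynomial.monic_prod_of_monic _ _ (fun w _ => monic_X_sub_C w)).ne_zero
  have hEle : E.card ≤ Fintype.card K := by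
    rw [← hcard]; exact Finset.card_le_univ _
  have key : ∀ e ∈ E, g.eval (z e) * ∏ e' ∈ E.erase e, (z e - z e') = -1 := by
    intro e he
    have h1 : ∏ e' ∈ E.erase e, (z e - z e') = ∏ w ∈ Z.erase (z e), (z e - w) := by
      have : Z.erase (z e) = (E.erase e).image z := by
        ext w
        simp only [hZ, mem_erase, mem_image]
        constructor
        · rintro ⟨hw, e', he', rfl⟩
          exact ⟨e', ⟨fun h => hw (by rw [h]), he'⟩, rfl⟩
        · rintro ⟨e', ⟨hne, he'⟩, rfl⟩
          refine ⟨fun h => hne (hz he' he h), e', he', rfl⟩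
      rw [this, Finset.prod_image]
      intro a ha b hb hab
      exact hz (mem_of_mem_erase ha) (mem_of_mem_erase hb) hab
    rw [h1, hg, Polynomial.eval_prod]
    simp only [eval_sub, eval_X, eval_C]
    rw [← Finset.prod_union]
    · have : (univ \ Z) ∪ Z.erase (z e) = (univ : Finset K).erase (z e) := by
        have hze : z e ∈ Z := by rw [hZ]; exact mem_image_of_mem _ he
        ext w
        simp only [mem_union, mem_sdiff, mem_univ, true_and, mem_erase, and_true]
        constructor
        · rintro (h | h)
          · intro hw; rw [hw] at h; exact h hze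
          · exact h.1
        · intro h
          by_cases hw : w ∈ Z
          · exact Or.inr ⟨h, hw⟩
          · exact Or.inl hw
      rw [this]
      exact prod_sub_erase _
    · rw [Finset.disjoint_left]
      intro w hw hw'
      simp only [mem_sdiff, mem_univ, true_and] at hw
      exact hw (mem_of_mem_erase hw')
  have hne : ∀ e ∈ E, ∏ e' ∈ E.erase e, (z e - z e') ≠ 0 := by
    intro e he h0
    have := key e he
    rw [h0, mul_zero] at this
    exact one_ne_zero (neg_eq_zero.1 this.symm)
  have hsum : ∑ e ∈ E, P.eval (z e) * ((∏ e' ∈ E.erase e, (z e - z e'))⁻¹) ^ 2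
      = - ∑ e ∈ E, (P * g).eval (z e) / ∏ e' ∈ E.erase e, (z e - z e') := by
    rw [← Finset.sum_neg_distrib]
    refine Finset.sum_congr rfl fun e he => ?_
    have h1 := key e he
    have h2 := hne e he
    rw [Polynomial.eval_mul]
    field_simp
    linear_combination (P.eval (z e)) * h1
  have hdeg : (P * g).degree < (E.card : ℕ) := by
    by_cases hP0 : P = 0
    · rw [hP0, zero_mul, degree_zero]
      exact WithBot.bot_lt_coe _
    · rw [Polynomial.degree_eq_natDegree (mul_ne_zero hP0 hgm), Polynomial.natDegree_mul hP0 hgm, hgdeg]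
      norm_cast
      omega
  rw [hsum, ← Lagrange.coeff_eq_sum hz hdeg, neg_eq_zero]
  refine Polynomial.coeff_eq_zero_of_natDegree_lt ?_
  by_cases hP0 : P = 0
  · rw [hP0, zero_mul, natDegree_zero]; omega
  · rw [Polynomial.natDegree_mul hP0 hgm, hgdeg]; omega

/-- Version with coefficients in an extension field. -/
lemma sum_affine_ext {L : Type*} [Field L] [Algebra K L] (E : Finset ι) (z : ι → K)
    (hz : Set.InjOn z (E : Set ι)) (P : L[X])
    (hP : P.natDegree + Fintype.card K + 2 ≤ 2 * E.card) :
    ∑ e ∈ E, P.eval (algebraMap K L (z e)) *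
      algebraMap K L (((∏ e' ∈ E.erase e, (z e - z e'))⁻¹) ^ 2) = 0 := by
  classical
  have h1 : ∀ j ∈ range (P.natDegree + 1),
      ∑ e ∈ E, (z e) ^ j * ((∏ e' ∈ E.erase e, (z e - z e'))⁻¹) ^ 2 = 0 := by
    intro j hj
    have hj' : j ≤ P.natDegree := by simpa [Nat.lt_succ_iff] using hj
    have := sum_affine E z hz (X ^ j) (by rw [natDegree_X_pow]; omega)
    simpa using this
  calc ∑ e ∈ E, P.eval (algebraMap K L (z e)) *
      algebraMap K L (((∏ e' ∈ E.erase e, (z e - z e'))⁻¹) ^ 2)
      = ∑ j ∈ range (P.natDegree + 1), P.coeff j * algebraMap K L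
        (∑ e ∈ E, (z e) ^ j * ((∏ e' ∈ E.erase e, (z e - z e'))⁻¹) ^ 2) := by
        simp only [map_sum, Finset.mul_sum]
        rw [Finset.sum_comm]
        refine Finset.sum_congr rfl fun e _ => ?_
        rw [Polynomial.eval_eq_sum_range, Finset.sum_mul]
        refine Finset.sum_congr rfl fun j _ => ?_
        simp only [map_mul, map_pow]
        ring
    _ = 0 := by
        refine Finset.sum_eq_zero fun j hj => ?_
        rw [h1 j hj, map_zero, mul_zero]

/-- The planar identity: vectors `(a e, b e)`, `e ∈ E`, pairwise independent, with `b e ≠ 0`. -/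
lemma planar_seg_aux {L : Type*} [Field L] [Algebra K L] (E : Finset ι) (a b : ι → K)
    (hb : ∀ e ∈ E, b e ≠ 0)
    (hab : ∀ e ∈ E, ∀ e' ∈ E, e ≠ e' → a e * b e' - b e * a e' ≠ 0)
    (m : ℕ) (hm : m + Fintype.card K + 3 = 2 * E.card) (p r : Fin m → L) :
    ∑ e ∈ E, (∏ i, (algebraMap K L (a e) * r i - algebraMap K L (b e) * p i)) *
      algebraMap K L (((∏ e' ∈ E.erase e, (a e * b e' - b e * a e'))⁻¹) ^ 2) = 0 := by
  classical
  set z : ι → K := fun e => a e / b e with hzdef
  have hz : Set.InjOn z (E : Set ι) := by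
    intro e he e' he' h
    by_contra hne
    refine hab e he e' he' hne ?_
    have h1 := hb e he
    have h2 := hb e' he'
    simp only [hzdef] at h
    field_simp at h
    linear_combination h
  set P : L[X] := ∏ i, (C (r i) * X - C (p i)) with hPdef
  have hPdeg : P.natDegree ≤ m := by
    rw [hPdef]
    refine (Polynomial.natDegree_prod_le _ _).trans ?_
    refine (Finset.sum_le_card_nsmul _ _ 1 ?_).trans (by simp)
    intro i _
    refine (Polynomial.natDegree_sub_le _ _).trans ?_
    simp only [natDegree_C, max_le_iff, zero_le, and_true]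
    exact (Polynomial.natDegree_C_mul_le _ _).trans Polynomial.natDegree_X_le
  have haff := sum_affine_ext (L := L) E z hz P (by omega)
  set A : K := ∏ e ∈ E, b e with hA
  have hA0 : A ≠ 0 := Finset.prod_ne_zero_iff.2 hb
  have hterm : ∀ e ∈ E, (∏ i, (algebraMap K L (a e) * r i - algebraMap K L (b e) * p i)) *
      algebraMap K L (((∏ e' ∈ E.erase e, (a e * b e' - b e * a e'))⁻¹) ^ 2)
      = algebraMap K L ((A⁻¹) ^ 2) * (P.eval (algebraMap K L (z e)) *
        algebraMap K L (((∏ e' ∈ E.erase e, (z e - z e'))⁻¹) ^ 2)) := by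
    intro e he
    have hbe := hb e he
    have hbe' : algebraMap K L (b e) ≠ 0 := by
      rw [Ne, map_eq_zero]; exact hbe
    have h1 : ∏ i, (algebraMap K L (a e) * r i - algebraMap K L (b e) * p i)
        = algebraMap K L (b e ^ m) * P.eval (algebraMap K L (z e)) := by
      rw [hPdef, Polynomial.eval_prod]
      simp only [eval_sub, eval_mul, eval_C, eval_X, hzdef]
      have : algebraMap K L (b e ^ m) = ∏ _i : Fin m, algebraMap K L (b e) := by simp
      rw [this, ← Finset.prod_mul_distrib]
      refine Finset.prod_congr rfl fun i _ => ?_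
      rw [map_div₀]
      field_simp
    have h2 : ∏ e' ∈ E.erase e, (a e * b e' - b e * a e')
        = b e ^ (E.card - 1) * (∏ e' ∈ E.erase e, b e') * ∏ e' ∈ E.erase e, (z e - z e') := by
      have : b e ^ (E.card - 1) = ∏ _e' ∈ E.erase e, b e := by
        rw [Finset.prod_const, Finset.card_erase_of_mem he]
      rw [this, ← Finset.prod_mul_distrib, ← Finset.prod_mul_distrib]
      refine Finset.prod_congr rfl fun e' he' => ?_
      have hbe' := hb e' (mem_of_mem_erase he')
      simp only [hzdef]
      field_simp
    have h3 : A = b e * ∏ e' ∈ E.erase e, b e' := by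
      rw [hA, Finset.mul_prod_erase _ _ he]
    have h4 : b e ^ Fintype.card K = b e := FiniteField.pow_card _
    have hB0 : (∏ e' ∈ E.erase e, b e') ≠ 0 := by
      intro h0; rw [h0, mul_zero] at h3; exact hA0 h3
    have hZ0 : ∏ e' ∈ E.erase e, (z e - z e') ≠ 0 := by
      refine Finset.prod_ne_zero_iff.2 fun e' he' => ?_
      rw [sub_ne_zero]
      intro h
      exact (ne_of_mem_erase he') (hz (mem_of_mem_erase he') he h.symm)
    have h5 : b e ^ m * b e * b e = (b e ^ (E.card - 1)) ^ 2 := by
      have hc1 : 1 ≤ E.card := by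
        have := Finset.card_pos.2 ⟨e, he⟩; omega
      have h6 : b e ^ (Fintype.card K) * (b e ^ m * b e * b e) = b e * (b e ^ (E.card - 1)) ^ 2 := by
        have e1 : b e ^ (Fintype.card K) * (b e ^ m * b e * b e)
            = b e ^ (Fintype.card K + m + 1 + 1) := by ring
        have e2 : b e * (b e ^ (E.card - 1)) ^ 2 = b e ^ ((E.card - 1) * 2 + 1) := by
          rw [pow_succ (b e) ((E.card - 1) * 2), pow_mul]; ring
        rw [e1, e2]
        congr 1
        omega
      rw [h4] at h6
      exact mul_left_cancel₀ hbe h6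
    have h7 : b e ^ m * (((∏ e' ∈ E.erase e, (a e * b e' - b e * a e'))⁻¹) ^ 2)
        = ((A⁻¹) ^ 2) * (((∏ e' ∈ E.erase e, (z e - z e'))⁻¹) ^ 2) := by
      rw [h2, h3]
      field_simp
      linear_combination h5
    rw [h1]
    calc algebraMap K L (b e ^ m) * P.eval (algebraMap K L (z e)) *
          algebraMap K L (((∏ e' ∈ E.erase e, (a e * b e' - b e * a e'))⁻¹) ^ 2)
        = P.eval (algebraMap K L (z e)) * algebraMap K L
          (b e ^ m * (((∏ e' ∈ E.erase e, (a e * b e' - b e * a e'))⁻¹) ^ 2)) := by
          rw [map_mul]; ring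
      _ = _ := by rw [h7, map_mul]; ring
  rw [Finset.sum_congr rfl hterm, ← Finset.mul_sum, haff, mul_zero]

/-- The planar identity, general form. -/
lemma planar_seg {L : Type*} [Field L] [Algebra K L] (E : Finset ι) (a b : ι → K)
    (hE : E.card < Fintype.card K) (h2E : 2 ≤ E.card)
    (hab : ∀ e ∈ E, ∀ e' ∈ E, e ≠ e' → a e * b e' - b e * a e' ≠ 0)
    (m : ℕ) (hm : m + Fintype.card K + 3 = 2 * E.card) (p r : Fin m → L) :
    ∑ e ∈ E, (∏ i, (algebraMap K L (a e) * r i - algebraMap K L (b e) * p i)) *
      algebraMap K L (((∏ e' ∈ E.erase e, (a e * b e' - b e * a e'))⁻¹) ^ 2) = 0 := by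
  classical
  obtain ⟨t, ht⟩ : ∃ t : K, t ∉ E.image (fun e => b e / a e) := by
    by_contra hcon
    push Not at hcon
    have h1 : (univ : Finset K) ⊆ E.image (fun e => b e / a e) := fun t _ => hcon t
    have h2 := Finset.card_le_card h1
    have h3 : (E.image (fun e => b e / a e)).card ≤ E.card := Finset.card_image_le
    rw [Finset.card_univ] at h2
    omega
  have hb : ∀ e ∈ E, b e - t * a e ≠ 0 := by
    intro e he h0
    by_cases hae : a e = 0
    · obtain ⟨e', he', hne⟩ : ∃ e' ∈ E, e' ≠ e := by
        by_contra hcon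
        push Not at hcon
        have : E ⊆ {e} := fun x hx => by simpa using hcon x hx
        have := Finset.card_le_card this
        simp at this
        omega
      have := hab e he e' he' (Ne.symm hne)
      rw [hae, mul_zero, sub_zero] at h0
      rw [hae, h0] at this
      simp at this
    · apply ht
      rw [Finset.mem_image]
      refine ⟨e, he, ?_⟩
      field_simp
      linear_combination h0
  have hab' : ∀ e e', a e * (b e' - t * a e') - (b e - t * a e) * a e' = a e * b e' - b e * a e' := by
    intro e e'; ring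
  have := planar_seg_aux (L := L) E a (fun e => b e - t * a e) hb
    (fun e he e' he' hne => by rw [hab']; exact hab e he e' he' hne) m hm p
    (fun i => r i - algebraMap K L t * p i)
  rw [← this]
  refine Finset.sum_congr rfl fun e _ => ?_
  simp only [hab']
  congr 1
  refine Finset.prod_congr rfl fun i _ => ?_
  simp only [map_sub, map_mul]
  ring

end Helper3.RN
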