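import Mathlib
import Pool.Agent.Helper3.RN.Planar

/-! Section 0.1 of project RN (MP_8a9ebc_co): the Segre-Ball system of an arc with q points. -/

open Finset Matrix

namespace Helper3.RN

variable {K : Type*} [Field K] {ι : Type*}

/-- any `k` of the vectors are linearly independent -/
def Arc {k : ℕ} (v : ι → Fin k → K) : Prop :=
  ∀ f : Fin k → ι, Function.Injective f → LinearIndependent K (fun i => v (f i))

/-- the bilinear form `det (z, y, w)`. -/
noncomputable def bil {n : ℕ} (w : Fin n → Fin (n + 2) → K) :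
    (Fin (n + 2) → K) →ₗ[K] (Fin (n + 2) → K) →ₗ[K] K :=
  LinearMap.mk₂ K
    (fun z y => (Matrix.detRowAlternating (R := K) (n := Fin (n + 2)))
      (Matrix.vecCons z (Matrix.vecCons y w)))
    (by
      intro z z' y
      simp only [← AlternatingMap.curryLeft_apply_apply]
      rw [map_add]; rfl)
    (by
      intro c z y
      simp only [← AlternatingMap.curryLeft_apply_apply]
      rw [map_smul]; rfl)
    (by
      intro z y y'
      simp only [← AlternatingMap.curryLeft_apply_apply]
      rw [map_add]; rfl)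
    (by
      intro c z y
      simp only [← AlternatingMap.curryLeft_apply_apply]
      rw [map_smul]; rfl)

lemma bil_apply {n : ℕ} (w : Fin n → Fin (n + 2) → K) (z y : Fin (n + 2) → K) :
    bil w z y = (Matrix.detRowAlternating (R := K) (n := Fin (n + 2)))
      (Matrix.vecCons z (Matrix.vecCons y w)) := rfl

lemma bil_eq_zero_left {n : ℕ} (w : Fin n → Fin (n + 2) → K) (i : Fin n) (y : Fin (n + 2) → K) :
    bil w (w i) y = 0 := by
  rw [bil_apply]
  refine AlternatingMap.map_eq_zero_of_eq _ _ (i := 0) (j := i.succ.succ) ?_ ?_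
  · simp
  · exact (Fin.succ_ne_zero _).symm

lemma bil_eq_zero_right {n : ℕ} (w : Fin n → Fin (n + 2) → K) (i : Fin n) (z : Fin (n + 2) → K) :
    bil w z (w i) = 0 := by
  rw [bil_apply]
  refine AlternatingMap.map_eq_zero_of_eq _ _ (i := 1) (j := i.succ.succ) ?_ ?_
  · simp
  · intro h
    have := congrArg Fin.val h
    simp at this

lemma bil_self {n : ℕ} (w : Fin n → Fin (n + 2) → K) (z : Fin (n + 2) → K) :
    bil w z z = 0 := by
  rw [bil_apply]
  refine AlternatingMap.map_eq_zero_of_eq _ _ (i := 0) (j := 1) ?_ ?_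
  · simp
  · intro h
    have := congrArg Fin.val h
    simp at this

lemma bil_swap {n : ℕ} (w : Fin n → Fin (n + 2) → K) (z y : Fin (n + 2) → K) :
    bil w z y = - bil w y z := by
  have h := bil_self w (z + y)
  simp only [map_add, LinearMap.add_apply, bil_self, zero_add, add_zero] at h
  exact eq_neg_of_add_eq_zero_right h

/-- The form `det (z, y, w)` in two coordinates. -/
lemma exists_psi {n : ℕ} (w : Fin n → Fin (n + 2) → K) (s s' : Fin (n + 2) → K)
    (hli : LinearIndependent K (Matrix.vecCons s (Matrix.vecCons s' w))) :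
    ∃ ψ₀ ψ₁ : Fin (n + 2) → K, (∀ i, ψ₀ ⬝ᵥ w i = 0) ∧ (∀ i, ψ₁ ⬝ᵥ w i = 0) ∧
      ∀ z y, bil w z y = (ψ₀ ⬝ᵥ z) * (ψ₁ ⬝ᵥ y) - (ψ₁ ⬝ᵥ z) * (ψ₀ ⬝ᵥ y) := by
  classical
  have hcard : Fintype.card (Fin (n + 2)) = Module.finrank K (Fin (n + 2) → K) := by simp
  set b := basisOfLinearIndependentOfCardEqFinrank hli hcard with hb
  have hbi : ∀ i, b i = Matrix.vecCons s (Matrix.vecCons s' w) i := by
    intro i
    rw [hb, coe_basisOfLinearIndependentOfCardEqFinrank]
  set Δ : K := bil w s s' with hΔ
  have hdot : ∀ φ : (Fin (n + 2) → K) →ₗ[K] K, ∀ z,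
      (fun j => φ (Pi.single j 1)) ⬝ᵥ z = φ z := by
    intro φ z
    rw [LinearMap.pi_apply_eq_sum_univ φ z]
    simp only [dotProduct, smul_eq_mul]
    refine Finset.sum_congr rfl fun j _ => ?_
    rw [mul_comm]
    congr 2
    ext l
    simp [Pi.single_apply, eq_comm]
  set φ₀ : (Fin (n + 2) → K) →ₗ[K] K := Δ • b.coord 0 with hφ₀
  set φ₁ : (Fin (n + 2) → K) →ₗ[K] K := b.coord 1 with hφ₁
  refine ⟨fun j => φ₀ (Pi.single j 1), fun j => φ₁ (Pi.single j 1), ?_, ?_, ?_⟩
  · intro i
    rw [hdot]
    have h1 : w i = b i.succ.succ := by rw [hbi]; simp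
    rw [h1, hφ₀, LinearMap.smul_apply, Module.Basis.coord_apply, Module.Basis.repr_self,
      Finsupp.single_eq_of_ne (Fin.succ_ne_zero _).symm, smul_zero]
  · intro i
    rw [hdot]
    have h1 : w i = b i.succ.succ := by rw [hbi]; simp
    rw [h1, hφ₁, Module.Basis.coord_apply, Module.Basis.repr_self,
      Finsupp.single_eq_of_ne]
    intro h
    have := congrArg Fin.val h
    simp at this
  · intro z y
    simp only [hdot]
    set B' : (Fin (n + 2) → K) →ₗ[K] (Fin (n + 2) → K) →ₗ[K] K :=
      LinearMap.mk₂ K (fun z y => φ₀ z * φ₁ y - φ₁ z * φ₀ y)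
        (by intro a b c; simp only [map_add]; ring)
        (by intro a b c; simp only [map_smul, smul_eq_mul]; ring)
        (by intro a b c; simp only [map_add]; ring)
        (by intro a b c; simp only [map_smul, smul_eq_mul]; ring) with hB'
    have hBB : bil w = B' := by
      refine LinearMap.ext_basis b b ?_
      intro i j
      have hB'a : B' (b i) (b j) = φ₀ (b i) * φ₁ (b j) - φ₁ (b i) * φ₀ (b j) := rfl
      rw [hB'a]
      have h0 : ∀ i, φ₀ (b i) = if i = 0 then Δ else 0 := by
        intro i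
        rw [hφ₀, LinearMap.smul_apply, Module.Basis.coord_apply, Module.Basis.repr_self,
          Finsupp.single_apply]
        simp
      have h1 : ∀ i, φ₁ (b i) = if i = 1 then 1 else 0 := by
        intro i
        rw [hφ₁, Module.Basis.coord_apply, Module.Basis.repr_self, Finsupp.single_apply]
      rw [h0, h0, h1, h1]
      have e01 : (0 : Fin (n + 2)) ≠ 1 := by
        intro h
        have := congrArg Fin.val h
        simp at this
      refine Fin.cases ?_ (fun i => Fin.cases ?_ (fun i => ?_) i) i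
      · refine Fin.cases ?_ (fun j => Fin.cases ?_ (fun j => ?_) j) j
        · rw [hbi]; simp [bil_self, e01]
        · rw [hbi, hbi]; simp [hΔ, e01]
        · have hj : (j.succ.succ : Fin (n + 2)) ≠ 1 := by
            intro h; have := congrArg Fin.val h; simp at this
          rw [hbi, hbi]; simp [bil_eq_zero_right, e01, hj]
      · refine Fin.cases ?_ (fun j => Fin.cases ?_ (fun j => ?_) j) j
        · rw [hbi, hbi, bil_swap]; simp [hΔ, e01]
        · rw [hbi]; simp [bil_self]
        · have hj : (j.succ.succ : Fin (n + 2)) ≠ 1 := by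
            intro h; have := congrArg Fin.val h; simp at this
          rw [hbi, hbi]; simp [bil_eq_zero_right, hj]
      · have hi : (i.succ.succ : Fin (n + 2)) ≠ 1 := by
          intro h; have := congrArg Fin.val h; simp at this
        rw [hbi i.succ.succ]; simp [bil_eq_zero_left, hi]
    rw [hBB]
    rfl


/-- enumerations of the same set differ by a permutation -/
lemma exists_perm {m : ℕ} {f g : Fin m → ι} (hf : Function.Injective f) (hg : Function.Injective g)
    (hfg : Set.range f = Set.range g) : ∃ σ : Equiv.Perm (Fin m), g = f ∘ σ := by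
  refine ⟨(Equiv.ofInjective g hg).trans ((Equiv.setCongr hfg.symm).trans
    (Equiv.ofInjective f hf).symm), ?_⟩
  ext i
  simp only [Function.comp_apply, Equiv.trans_apply]
  have := Equiv.apply_ofInjective_symm hf
    ((Equiv.setCongr hfg.symm) ((Equiv.ofInjective g hg) i))
  rw [this]
  simp

/-- the linear form `z ↦ det (z, w)` -/
noncomputable def frm {n : ℕ} (w : Fin (n + 1) → Fin (n + 2) → K) :
    (Fin (n + 2) → K) →ₗ[K] K where
  toFun z := (Matrix.detRowAlternating (R := K) (n := Fin (n + 2))) (Matrix.vecCons z w)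
  map_add' := by
    intro z z'
    simp only [← AlternatingMap.curryLeft_apply_apply]
    rw [map_add]; rfl
  map_smul' := by
    intro c z
    simp only [← AlternatingMap.curryLeft_apply_apply]
    rw [map_smul]; rfl

lemma frm_apply {n : ℕ} (w : Fin (n + 1) → Fin (n + 2) → K) (z : Fin (n + 2) → K) :
    frm w z = (Matrix.detRowAlternating (R := K) (n := Fin (n + 2))) (Matrix.vecCons z w) := rfl

lemma frm_perm {n : ℕ} (w : Fin (n + 1) → Fin (n + 2) → K) (σ : Equiv.Perm (Fin (n + 1)))
    (z : Fin (n + 2) → K) : frm (w ∘ σ) z = (Equiv.Perm.sign σ : ℤ) • frm w z := by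
  rw [frm_apply, frm_apply, ← AlternatingMap.curryLeft_apply_apply, AlternatingMap.map_perm,
    ← AlternatingMap.curryLeft_apply_apply]
  rfl

/-- a linear form on `Fin k → K` as a coefficient vector -/
lemma dot_coeff {k : ℕ} (φ : (Fin k → K) →ₗ[K] K) (z : Fin k → K) :
    (fun j => φ (Pi.single j 1)) ⬝ᵥ z = φ z := by
  classical
  rw [LinearMap.pi_apply_eq_sum_univ φ z]
  simp only [dotProduct, smul_eq_mul]
  refine Finset.sum_congr rfl fun j _ => ?_
  rw [mul_comm]
  congr 2
  ext l
  simp [Pi.single_apply, eq_comm]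

/-- two linear forms with equal values have equal coefficient vectors; used through `dot`. -/
lemma coeff_eq {k : ℕ} (φ : (Fin k → K) →ₗ[K] K) (a : Fin k → K)
    (h : ∀ z, φ z = a ⬝ᵥ z) : (fun j => φ (Pi.single j 1)) = a := by
  classical
  ext j
  rw [h, dotProduct_single, mul_one]

/-- The Segre-Ball system of an arc with `q` points (level `m = q - 2k + 1`, `k = n + 2`). -/
theorem exists_system [Fintype K] [DecidableEq K] [Fintype ι] [DecidableEq ι] {n m : ℕ}
    (v : ι → Fin (n + 2) → K) (harc : Arc v) (hcard : Fintype.card ι = Fintype.card K)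
    (hn : 1 ≤ n) (hm : Fintype.card K = 2 * n + 3 + m) (hev : Even m) :
    ∃ (c : Finset ι → K) (D : Finset ι → Fin (n + 2) → K),
      (∀ B : Finset ι, B.card = n + 1 → c B ≠ 0) ∧
      (∀ B : Finset ι, B.card = n + 1 → ∀ b ∈ B, D B ⬝ᵥ v b = 0) ∧
      (∀ B : Finset ι, B.card = n + 1 → ∀ z, z ∉ B → D B ⬝ᵥ v z ≠ 0) ∧
      (∀ (L : Type*) [Field L] [Algebra K L], ∀ C : Finset ι, C.card = n →
        ∀ u : Fin m → Fin (n + 2) → L,
        ∑ y ∈ univ \ C, algebraMap K L (c (insert y C)) *
          ∏ i, ((fun j => algebraMap K L (D (insert y C) j)) ⬝ᵥ u i) = 0) := by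
  classical
  have hne : Nonempty ι := by
    rw [← Fintype.card_pos_iff, hcard]; exact Fintype.card_pos
  -- enumeration of the sets
  have hen : ∀ B : Finset ι, B.card = n + 1 → ∃ f : Fin (n + 1) → ι, Function.Injective f ∧
      Set.range f = (B : Set ι) := by
    intro B hB
    refine ⟨fun i => ((B.equivFinOfCardEq hB).symm i : ι), ?_, ?_⟩
    · intro i j hij
      exact (B.equivFinOfCardEq hB).symm.injective (Subtype.ext hij)
    · ext x
      constructor
      · rintro ⟨i, rfl⟩
        exact ((B.equivFinOfCardEq hB).symm i).2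
      · intro hx
        exact ⟨B.equivFinOfCardEq hB ⟨x, hx⟩, by simp⟩
  choose! en hen1 hen2 using hen
  set φ : Finset ι → (Fin (n + 2) → K) →ₗ[K] K := fun B => frm (fun i => v (en B i)) with hφ
  have hφne : ∀ B : Finset ι, B.card = n + 1 → ∀ z, z ∉ B → φ B (v z) ≠ 0 := by
    intro B hB z hz
    have hinj : Function.Injective (Matrix.vecCons z (en B)) := by
      intro i j
      refine Fin.cases ?_ (fun i => ?_) i
      · refine Fin.cases (fun _ => rfl) (fun j h => ?_) j
        exfalso
        simp only [Matrix.cons_val_zero, Matrix.cons_val_succ] at h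
        apply hz
        have : en B j ∈ Set.range (en B) := ⟨j, rfl⟩
        rw [hen2 B hB, ← h] at this
        exact this
      · refine Fin.cases (fun h => ?_) (fun j h => ?_) j
        · exfalso
          simp only [Matrix.cons_val_zero, Matrix.cons_val_succ] at h
          apply hz
          have : en B i ∈ Set.range (en B) := ⟨i, rfl⟩
          rw [hen2 B hB, h] at this
          exact this
        · simp only [Matrix.cons_val_succ] at h
          rw [hen1 B hB h]
    have hli := harc _ hinj
    have hdet := (Matrix.linearIndependent_rows_iff_isUnit (A := Matrix.of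
      (fun i => v (Matrix.vecCons z (en B) i)))).1 hli
    rw [Matrix.isUnit_iff_isUnit_det, isUnit_iff_ne_zero] at hdet
    have : (fun i => v (Matrix.vecCons z (en B) i)) = Matrix.vecCons (v z) (fun i => v (en B i)) := by
      ext i l
      refine Fin.cases ?_ (fun i => ?_) i
      · simp
      · simp
    rw [this] at hdet
    exact hdet
  have hφ0 : ∀ B : Finset ι, B.card = n + 1 → ∀ b ∈ B, φ B (v b) = 0 := by
    intro B hB b hb
    have : b ∈ Set.range (en B) := by rw [hen2 B hB]; exact hb
    obtain ⟨i, rfl⟩ := this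
    rw [hφ]
    simp only [frm_apply]
    refine AlternatingMap.map_eq_zero_of_eq _ _ (i := 0) (j := i.succ) ?_ ?_
    · simp
    · exact (Fin.succ_ne_zero _).symm
  refine ⟨fun B => ((∏ z ∈ univ \ B, φ B (v z))⁻¹) ^ 2, fun B j => φ B (Pi.single j 1), ?_, ?_, ?_, ?_⟩
  · intro B hB
    refine pow_ne_zero _ (inv_ne_zero (Finset.prod_ne_zero_iff.2 ?_))
    intro z hz
    exact hφne B hB z (by simpa using hz)
  · intro B hB b hb
    rw [dot_coeff]; exact hφ0 B hB b hb
  · intro B hB z hz
    rw [dot_coeff]; exact hφne B hB z hz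
  · intro L _ _ C hC u
    -- enumeration of C and two more points
    obtain ⟨f, hf1, hf2⟩ : ∃ f : Fin n → ι, Function.Injective f ∧ Set.range f = (C : Set ι) := by
      refine ⟨fun i => ((C.equivFinOfCardEq hC).symm i : ι), ?_, ?_⟩
      · intro i j hij
        exact (C.equivFinOfCardEq hC).symm.injective (Subtype.ext hij)
      · ext x
        constructor
        · rintro ⟨i, rfl⟩
          exact ((C.equivFinOfCardEq hC).symm i).2
        · intro hx
          exact ⟨C.equivFinOfCardEq hC ⟨x, hx⟩, by simp⟩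
    set E : Finset ι := univ \ C with hE
    have hEcard : E.card = Fintype.card K - n := by
      rw [hE, Finset.card_sdiff_of_subset (subset_univ C), Finset.card_univ, hcard, hC]
    have hmemE : ∀ y, y ∈ E ↔ y ∉ C := by intro y; simp [hE]
    have hmemC : ∀ y, y ∈ C ↔ y ∈ Set.range f := by intro y; rw [hf2]; rfl
    have hinj2 : ∀ y y', y ∉ C → y' ∉ C → y ≠ y' →
        Function.Injective (Matrix.vecCons y (Matrix.vecCons y' f)) := by
      intro y y' hy hy' hne i j
      rw [hmemC] at hy hy'
      refine Fin.cases ?_ (fun i => Fin.cases ?_ (fun i => ?_) i) i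
      · refine Fin.cases (fun _ => rfl) (fun j => Fin.cases (fun h => ?_) (fun j h => ?_) j) j
        · exact absurd h hne
        · exact absurd ⟨j, by simpa using h.symm⟩ hy
      · refine Fin.cases (fun h => ?_) (fun j => Fin.cases (fun _ => rfl) (fun j h => ?_) j) j
        · exact absurd h.symm hne
        · exact absurd ⟨j, by simpa using h.symm⟩ hy'
      · refine Fin.cases (fun h => ?_) (fun j => Fin.cases (fun h => ?_) (fun j h => ?_) j) j
        · exact absurd ⟨i, by simpa using h⟩ hy
        · exact absurd ⟨i, by simpa using h⟩ hy'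
        · have : f i = f j := by simpa using h
          rw [hf1 this]
    have hvc : ∀ y y', (fun i => v (Matrix.vecCons y (Matrix.vecCons y' f) i))
        = Matrix.vecCons (v y) (Matrix.vecCons (v y') (fun i => v (f i))) := by
      intro y y'
      ext i l
      refine Fin.cases ?_ (fun i => Fin.cases ?_ (fun i => ?_) i) i <;> simp
    obtain ⟨s, hs, s', hs', hss⟩ : ∃ s ∈ E, ∃ s' ∈ E, s ≠ s' := by
      have : 1 < E.card := by omega
      obtain ⟨s, hs, s', hs', h⟩ := Finset.one_lt_card.1 this
      exact ⟨s, hs, s', hs', h⟩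
    obtain ⟨ψ₀, ψ₁, hψ0, hψ1, hbil⟩ := exists_psi (fun i => v (f i)) (v s) (v s') (by
      rw [← hvc]
      exact harc _ (hinj2 s s' ((hmemE s).1 hs) ((hmemE s').1 hs') hss))
    have hbne : ∀ y ∈ E, ∀ y' ∈ E, y ≠ y' →
        (ψ₀ ⬝ᵥ v y) * (ψ₁ ⬝ᵥ v y') - (ψ₁ ⬝ᵥ v y) * (ψ₀ ⬝ᵥ v y') ≠ 0 := by
      intro y hy y' hy' hne
      rw [← hbil, bil_apply, ← hvc]
      have hli := harc _ (hinj2 y y' ((hmemE y).1 hy) ((hmemE y').1 hy') hne)
      have hdet := (Matrix.linearIndependent_rows_iff_isUnit (A := Matrix.of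
        (fun i => v (Matrix.vecCons y (Matrix.vecCons y' f) i)))).1 hli
      rw [Matrix.isUnit_iff_isUnit_det, isUnit_iff_ne_zero] at hdet
      exact hdet
    -- the sign
    have hsign : ∀ y ∈ E, ∃ ε : K, ε ^ 2 = 1 ∧ ∀ z, φ (insert y C) z =
        ε * ((ψ₀ ⬝ᵥ z) * (ψ₁ ⬝ᵥ v y) - (ψ₁ ⬝ᵥ z) * (ψ₀ ⬝ᵥ v y)) := by
      intro y hy
      have hyC : y ∉ C := (hmemE y).1 hy
      have hBc : (insert y C).card = n + 1 := by rw [Finset.card_insert_of_notMem hyC, hC]
      have hcons : Function.Injective (Matrix.vecCons y f) := by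
        intro i j
        rw [hmemC] at hyC
        refine Fin.cases ?_ (fun i => ?_) i
        · refine Fin.cases (fun _ => rfl) (fun j h => ?_) j
          exact absurd ⟨j, by simpa using h.symm⟩ hyC
        · refine Fin.cases (fun h => ?_) (fun j h => ?_) j
          · exact absurd ⟨i, by simpa using h⟩ hyC
          · have : f i = f j := by simpa using h
            rw [hf1 this]
      have hrange : Set.range (Matrix.vecCons y f) = Set.range (en (insert y C)) := by
        rw [hen2 _ hBc, Matrix.range_cons, hf2]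
        ext x; simp
      obtain ⟨σ, hσ⟩ := exists_perm hcons (hen1 _ hBc) hrange
      refine ⟨((Equiv.Perm.sign σ : ℤ) : K), ?_, ?_⟩
      · rcases Int.units_eq_one_or (Equiv.Perm.sign σ) with h | h <;> rw [h] <;> simp
      · intro z
        have h1 : (fun i => v (en (insert y C) i)) = (fun i => v (Matrix.vecCons y f i)) ∘ σ := by
          ext i l
          rw [hσ]; rfl
        have h2 : (fun i => v (Matrix.vecCons y f i)) = Matrix.vecCons (v y) (fun i => v (f i)) := by
          ext i l
          refine Fin.cases ?_ (fun i => ?_) i <;> simp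
        rw [hφ]
        simp only
        rw [h1, frm_perm, h2, ← hbil]
        rw [frm_apply, bil_apply, zsmul_eq_mul]
    choose! ε hε1 hε2 using hsign
    have hplan := planar_seg (L := L) E (fun e => ψ₀ ⬝ᵥ v e) (fun e => ψ₁ ⬝ᵥ v e)
      (by rw [hEcard]; omega) (by rw [hEcard]; omega) hbne m (by rw [hEcard]; omega)
      (fun i => (fun j => algebraMap K L (ψ₀ j)) ⬝ᵥ u i)
      (fun i => (fun j => algebraMap K L (ψ₁ j)) ⬝ᵥ u i)
    rw [← hplan]
    refine Finset.sum_congr rfl fun y hy => ?_
    have hyC : y ∉ C := (hmemE y).1 hy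
    have hBE : univ \ (insert y C) = E.erase y := by
      ext x; simp [hE]
    have hc : ((∏ z ∈ univ \ (insert y C), φ (insert y C) (v z))⁻¹) ^ 2
        = ((∏ e' ∈ E.erase y, ((ψ₀ ⬝ᵥ v y) * (ψ₁ ⬝ᵥ v e') - (ψ₁ ⬝ᵥ v y) * (ψ₀ ⬝ᵥ v e')))⁻¹) ^ 2 := by
      rw [hBE, inv_pow, inv_pow, ← Finset.prod_pow, ← Finset.prod_pow]
      congr 1
      refine Finset.prod_congr rfl fun e' _ => ?_
      rw [hε2 y hy, mul_pow, hε1 y hy]
      ring
    have hD : ∀ i, ((fun j => algebraMap K L (φ (insert y C) (Pi.single j 1))) ⬝ᵥ u i)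
        = algebraMap K L (- ε y) * (algebraMap K L (ψ₀ ⬝ᵥ v y) *
          ((fun j => algebraMap K L (ψ₁ j)) ⬝ᵥ u i) - algebraMap K L (ψ₁ ⬝ᵥ v y) *
          ((fun j => algebraMap K L (ψ₀ j)) ⬝ᵥ u i)) := by
      intro i
      have hco : (fun j => φ (insert y C) (Pi.single j 1)) =
          (ε y * (ψ₁ ⬝ᵥ v y)) • ψ₀ - (ε y * (ψ₀ ⬝ᵥ v y)) • ψ₁ := by
        refine coeff_eq _ _ ?_
        intro z
        rw [hε2 y hy, sub_dotProduct, smul_dotProduct, smul_dotProduct, smul_eq_mul, smul_eq_mul]
        ring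
      have hco' : (fun j => algebraMap K L (φ (insert y C) (Pi.single j 1))) =
          (algebraMap K L (ε y * (ψ₁ ⬝ᵥ v y))) • (fun j => algebraMap K L (ψ₀ j))
          - (algebraMap K L (ε y * (ψ₀ ⬝ᵥ v y))) • (fun j => algebraMap K L (ψ₁ j)) := by
        ext j
        have h3 := congrFun hco j
        change φ (insert y C) (Pi.single j 1) = _ at h3
        change algebraMap K L (φ (insert y C) (Pi.single j 1)) = _
        rw [h3]
        simp
      rw [hco', sub_dotProduct, smul_dotProduct, smul_dotProduct, smul_eq_mul, smul_eq_mul]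
      simp only [map_mul, map_neg]
      ring
    have hprod : ∏ i, ((fun j => algebraMap K L (φ (insert y C) (Pi.single j 1))) ⬝ᵥ u i)
        = ∏ i, (algebraMap K L (- ε y) * (algebraMap K L (ψ₀ ⬝ᵥ v y) *
          ((fun j => algebraMap K L (ψ₁ j)) ⬝ᵥ u i) - algebraMap K L (ψ₁ ⬝ᵥ v y) *
          ((fun j => algebraMap K L (ψ₀ j)) ⬝ᵥ u i))) := Finset.prod_congr rfl fun i _ => hD i
    rw [hprod, Finset.prod_mul_distrib, Finset.prod_const, Finset.card_univ, Fintype.card_fin]
    have hεm : (algebraMap K L (- ε y)) ^ m = 1 := by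
      obtain ⟨r, hr⟩ := hev
      rw [← map_pow, hr, ← two_mul, pow_mul, neg_sq, hε1 y hy, one_pow, map_one]
    change algebraMap K L (((∏ z ∈ univ \ (insert y C), φ (insert y C) (v z))⁻¹) ^ 2) * _ = _
    rw [hεm, hc]
    ring

end Helper3.RN
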