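import Mathlib
import Pool.Agent.Helper3.RN.Segre
import Pool.Agent.Helper31.RN.Defs

/-! Project RN (MP_8a9ebc_co): Gale duality for arcs and normal rational curves. -/

open Finset Matrix Polynomial

namespace Helper3.RN

open Pool.Agent.Helper31.RN

variable {F : Type*} [Field F] {ι : Type*} [Fintype ι] [DecidableEq ι]

/-- the family `v` lies on a normal rational curve -/
def OnNRC {k : ℕ} (v : ι → Fin k → F) : Prop :=
  ∃ (g : (Fin k → F) ≃ₗ[F] (Fin k → F)) (a b l : ι → F), (∀ x, l x ≠ 0) ∧
    (∀ x, a x ≠ 0 ∨ b x ≠ 0) ∧ ∀ x, v x = l x • g (nuh k (a x) (b x))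

/-- homogeneous Lagrange interpolation, all `b x ≠ 0` -/
lemma hom_lagrange_aux (a b : ι → F) (hb : ∀ x, b x ≠ 0)
    (hab : ∀ x y, x ≠ y → a x * b y - b x * a y ≠ 0) (i j : ℕ)
    (hij : i + j + 2 = Fintype.card ι) :
    ∑ x, a x ^ i * b x ^ j * (∏ y ∈ univ.erase x, (a x * b y - b x * a y))⁻¹ = 0 := by
  classical
  set z : ι → F := fun x => a x / b x with hz
  have hzinj : Function.Injective z := by
    intro x y h
    by_contra hne
    refine hab x y hne ?_
    have h1 := hb x
    have h2 := hb y
    simp only [hz] at h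
    field_simp at h
    linear_combination h
  have h0 : ∑ x, z x ^ i / (∏ y ∈ univ.erase x, (z x - z y)) = 0 := by
    have h1 := Lagrange.coeff_eq_sum (s := (univ : Finset ι)) (v := z) hzinj.injOn
      (P := (X ^ i : F[X])) (by
        rw [degree_X_pow, Finset.card_univ, ← hij]
        exact_mod_cast (by omega : i < i + j + 2))
    have h2 : (X ^ i : F[X]).coeff ((univ : Finset ι).card - 1) = 0 := by
      rw [coeff_X_pow, if_neg]
      rw [Finset.card_univ, ← hij]
      omega
    rw [h2] at h1
    simpa using h1.symm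
  set A : F := ∏ x, b x with hA
  have hA0 : A ≠ 0 := Finset.prod_ne_zero_iff.2 fun x _ => hb x
  have hterm : ∀ x ∈ (univ : Finset ι),
      a x ^ i * b x ^ j * (∏ y ∈ univ.erase x, (a x * b y - b x * a y))⁻¹
      = A⁻¹ * (z x ^ i / (∏ y ∈ univ.erase x, (z x - z y))) := by
    intro x _
    have hbx := hb x
    have h2 : ∏ y ∈ univ.erase x, (a x * b y - b x * a y)
        = b x ^ (i + j + 1) * (∏ y ∈ univ.erase x, b y) * ∏ y ∈ univ.erase x, (z x - z y) := by
      have : b x ^ (i + j + 1) = ∏ _y ∈ univ.erase x, b x := by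
        rw [Finset.prod_const, Finset.card_erase_of_mem (mem_univ x), Finset.card_univ, ← hij]
        rfl
      rw [this, ← Finset.prod_mul_distrib, ← Finset.prod_mul_distrib]
      refine Finset.prod_congr rfl fun y _ => ?_
      have hby := hb y
      simp only [hz]
      field_simp
    have h3 : A = b x * ∏ y ∈ univ.erase x, b y := by
      rw [hA, Finset.mul_prod_erase _ _ (mem_univ x)]
    have hB0 : (∏ y ∈ univ.erase x, b y) ≠ 0 := by
      intro h0; rw [h0, mul_zero] at h3; exact hA0 h3
    have hZ0 : ∏ y ∈ univ.erase x, (z x - z y) ≠ 0 := by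
      refine Finset.prod_ne_zero_iff.2 fun y hy => ?_
      rw [sub_ne_zero]
      intro h
      exact (ne_of_mem_erase hy) (hzinj h.symm)
    have hzx : z x ^ i = a x ^ i / b x ^ i := by simp only [hz, div_pow]
    rw [h2, h3, hzx, pow_add, pow_add, pow_one]
    field_simp
  rw [Finset.sum_congr rfl hterm, ← Finset.mul_sum, h0, mul_zero]

/-- homogeneous Lagrange interpolation over an infinite field -/
lemma hom_lagrange_inf [Infinite F] (a b : ι → F)
    (hab : ∀ x y, x ≠ y → a x * b y - b x * a y ≠ 0) (hne : ∀ x, a x ≠ 0 ∨ b x ≠ 0)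
    (i j : ℕ) (hij : i + j + 2 = Fintype.card ι) :
    ∑ x, a x ^ i * b x ^ j * (∏ y ∈ univ.erase x, (a x * b y - b x * a y))⁻¹ = 0 := by
  classical
  obtain ⟨t, ht⟩ := Infinite.exists_notMem_finset (univ.image (fun e => b e / a e))
  set b' : ι → F := fun x => b x - t * a x with hb'
  have hb'ne : ∀ x, b' x ≠ 0 := by
    intro x
    simp only [hb']
    by_cases hx : a x = 0
    · rw [hx, mul_zero, sub_zero]
      exact (hne x).resolve_left (not_not.2 hx)
    · intro h0
      apply ht
      rw [Finset.mem_image]
      refine ⟨x, mem_univ _, ?_⟩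
      field_simp
      linear_combination h0
  have hbr : ∀ x y, a x * b' y - b' x * a y = a x * b y - b x * a y := by
    intro x y; simp only [hb']; ring
  have hsum : ∀ i' j', i' + j' + 2 = Fintype.card ι →
      ∑ x, a x ^ i' * b' x ^ j' * (∏ y ∈ univ.erase x, (a x * b y - b x * a y))⁻¹ = 0 := by
    intro i' j' h
    have := hom_lagrange_aux a b' hb'ne (fun x y hxy => by rw [hbr]; exact hab x y hxy) i' j' h
    simpa only [hbr] using this
  have hexp : ∀ x, a x ^ i * b x ^ j = ∑ l ∈ range (j + 1),
      (t ^ (j - l) * (j.choose l : F)) * (a x ^ (i + (j - l)) * b' x ^ l) := by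
    intro x
    have : b x = b' x + t * a x := by simp only [hb']; ring
    rw [this, add_pow, Finset.mul_sum]
    refine Finset.sum_congr rfl fun l _ => ?_
    rw [mul_pow, pow_add]; ring
  calc ∑ x, a x ^ i * b x ^ j * (∏ y ∈ univ.erase x, (a x * b y - b x * a y))⁻¹
      = ∑ l ∈ range (j + 1), (t ^ (j - l) * (j.choose l : F)) *
        ∑ x, a x ^ (i + (j - l)) * b' x ^ l *
          (∏ y ∈ univ.erase x, (a x * b y - b x * a y))⁻¹ := by
        simp only [Finset.mul_sum]
        rw [Finset.sum_comm]
        refine Finset.sum_congr rfl fun x _ => ?_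
        rw [hexp, Finset.sum_mul]
        refine Finset.sum_congr rfl fun l _ => ?_
        ring
    _ = 0 := by
        refine Finset.sum_eq_zero fun l hl => ?_
        rw [hsum, mul_zero]
        have : l ≤ j := by simpa [Nat.lt_succ_iff] using hl
        omega

/-- homogeneous Lagrange interpolation, any field -/
lemma hom_lagrange (a b : ι → F)
    (hab : ∀ x y, x ≠ y → a x * b y - b x * a y ≠ 0) (hne : ∀ x, a x ≠ 0 ∨ b x ≠ 0)
    (i j : ℕ) (hij : i + j + 2 = Fintype.card ι) :
    ∑ x, a x ^ i * b x ^ j * (∏ y ∈ univ.erase x, (a x * b y - b x * a y))⁻¹ = 0 := by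
  have h := hom_lagrange_inf (F := AlgebraicClosure F) (fun x => algebraMap F _ (a x))
    (fun x => algebraMap F _ (b x)) (fun x y hxy => by
      rw [← map_mul, ← map_mul, ← map_sub, Ne, map_eq_zero]; exact hab x y hxy)
    (fun x => by
      rcases hne x with h | h
      · left; rw [Ne, map_eq_zero]; exact h
      · right; rw [Ne, map_eq_zero]; exact h) i j hij
  apply (algebraMap F (AlgebraicClosure F)).injective
  rw [map_zero, ← h]
  simp only [map_sum, map_mul, map_pow, map_inv₀, map_prod, map_sub]

/-- in an arc every relation on at most `k` points is zero -/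
lemma Arc.rel_zero {k : ℕ} {v : ι → Fin k → F} (harc : Arc v) (hk : k ≤ Fintype.card ι)
    (T : Finset ι) (hT : T.card ≤ k) (r : ι → F) (hr : ∑ x ∈ T, r x • v x = 0) :
    ∀ x ∈ T, r x = 0 := by
  classical
  obtain ⟨T', hTT', hT'⟩ := Finset.exists_superset_card_eq hT (by rwa [Finset.card_univ] : k ≤ (univ : Finset ι).card)
  have e : Fin k ≃ T' := (Fintype.equivFinOfCardEq (by simpa using hT')).symm
  have hli := harc (fun i => (e i : ι)) (fun i j hij => e.injective (Subtype.ext hij))
  rw [Fintype.linearIndependent_iff] at hli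
  have h1 : ∑ i : Fin k, (if (e i : ι) ∈ T then r (e i) else 0) • v (e i) = 0 := by
    rw [Equiv.sum_comp e (fun t : T' => (if (t : ι) ∈ T then r t else 0) • v t)]
    rw [Finset.sum_coe_sort T' (fun t => (if t ∈ T then r t else 0) • v t)]
    rw [← hr]
    symm
    rw [← Finset.sum_subset hTT']
    · refine Finset.sum_congr rfl fun x hx => ?_
      rw [if_pos hx]
    · intro x _ hx
      rw [if_neg hx, zero_smul]
  intro x hx
  have := hli _ h1 (e.symm ⟨x, hTT' hx⟩)
  simpa [hx] using this

/-- the parameters of the points of an arc on a normal rational curve are distinct -/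
lemma bracket_ne {k : ℕ} (hk : 2 ≤ k) {v : ι → Fin k → F} (harc : Arc v)
    (hcard : k ≤ Fintype.card ι) (g : (Fin k → F) ≃ₗ[F] (Fin k → F)) (a b l : ι → F)
    (hne : ∀ x, a x ≠ 0 ∨ b x ≠ 0)
    (h : ∀ x, v x = l x • g (nuh k (a x) (b x))) :
    ∀ x y, x ≠ y → a x * b y - b x * a y ≠ 0 := by
  classical
  intro x y hxy h0
  -- `(a y, b y) = c (a x, b x)`
  obtain ⟨c, hca, hcb⟩ : ∃ c, a y = c * a x ∧ b y = c * b x := by
    rcases hne x with hx | hx
    · refine ⟨a y / a x, by field_simp, ?_⟩
      field_simp
      linear_combination h0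
    · refine ⟨b y / b x, ?_, by field_simp⟩
      field_simp
      linear_combination -h0
  have hnu : nuh k (a y) (b y) = c ^ (k - 1) • nuh k (a x) (b x) := by
    ext i
    simp only [nuh, Pi.smul_apply, smul_eq_mul]
    rw [hca, hcb, mul_pow, mul_pow]
    have : c ^ (k - 1) = c ^ (i : ℕ) * c ^ (k - 1 - (i : ℕ)) := by
      rw [← pow_add]; congr 1; have := i.2; omega
    rw [this]; ring
  have hlx : l x ≠ 0 := by
    intro hl
    have h1 := harc.rel_zero hcard {x} (by simpa using (by omega : 1 ≤ k)) (fun _ => 1)
      (by rw [Finset.sum_singleton, h x, hl, zero_smul, smul_zero]) x (by simp)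
    exact one_ne_zero h1
  have hrel : ∑ z ∈ ({x, y} : Finset ι), (if z = x then l y * c ^ (k - 1) else - l x) • v z = 0 := by
    rw [Finset.sum_pair hxy, if_pos rfl, if_neg hxy.symm, h x, h y, hnu, map_smul, smul_smul, smul_smul,
      smul_smul, ← add_smul]
    have : l y * c ^ (k - 1) * l x + -l x * l y * c ^ (k - 1) = 0 := by ring
    rw [this, zero_smul]
  have h2 := harc.rel_zero hcard {x, y} (by rw [Finset.card_pair hxy]; exact hk) _ hrel y (by simp)
  rw [if_neg hxy.symm] at h2
  exact hlx (neg_eq_zero.1 h2)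

/-- Gale duality -/
theorem dual_onNRC {k k' : ℕ} (hk : 1 ≤ k) (hk' : 2 ≤ k') (v : ι → Fin k → F)
    (harc : Arc v) (hcard : Fintype.card ι = k + k')
    (H : ∀ w : ι → Fin k' → F, Arc w → OnNRC w) : OnNRC v := by
  classical
  set Φ : (ι → F) →ₗ[F] (Fin k → F) := Fintype.linearCombination F v with hΦ
  have hΦa : ∀ r, Φ r = ∑ x, r x • v x := fun r => by rw [hΦ, Fintype.linearCombination_apply]
  have hsurj : Function.Surjective Φ := by
    rw [← LinearMap.range_eq_top, hΦ, Fintype.range_linearCombination, eq_top_iff]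
    obtain ⟨f⟩ : Nonempty (Fin k ↪ ι) := Function.Embedding.nonempty_of_card_le (by simp; omega)
    have hli := harc f f.injective
    have hsp := hli.span_eq_top_of_card_eq_finrank' (by simp)
    rw [← hsp]
    refine Submodule.span_mono ?_
    rintro _ ⟨i, rfl⟩
    exact ⟨f i, rfl⟩
  have hfin : Module.finrank F (LinearMap.ker Φ) = k' := by
    have h1 := LinearMap.finrank_range_add_finrank_ker Φ
    rw [LinearMap.range_eq_top.2 hsurj, finrank_top, Module.finrank_fin_fun,
      Module.finrank_fintype_fun_eq_card, hcard] at h1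
    omega
  set r := Module.finBasisOfFinrankEq F (LinearMap.ker Φ) hfin with hr
  set w : ι → Fin k' → F := fun x j => (r j : ι → F) x with hw
  have hwarc : Arc w := by
    intro f hf
    have hcols : LinearIndependent F (Matrix.of (fun i => w (f i))).col := by
      rw [Fintype.linearIndependent_iff]
      intro d hd
      set s : LinearMap.ker Φ := ∑ j, d j • r j with hs
      have hs0 : ∀ i, (s : ι → F) (f i) = 0 := by
        intro i
        have := congrFun hd i
        simp only [Finset.sum_apply, Pi.smul_apply, smul_eq_mul, Pi.zero_apply] at this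
        rw [hs]
        simp only [Submodule.coe_sum, Submodule.coe_smul, Finset.sum_apply, Pi.smul_apply,
          smul_eq_mul]
        exact this
      have hsk := s.2
      rw [LinearMap.mem_ker, hΦa] at hsk
      set T : Finset ι := univ \ univ.image f with hT
      have hTc : T.card ≤ k := by
        rw [hT, Finset.card_sdiff_of_subset (subset_univ _), Finset.card_univ,
          Finset.card_image_of_injective _ hf, Finset.card_univ, Fintype.card_fin, hcard]
        omega
      have hsT : ∑ x ∈ T, (s : ι → F) x • v x = 0 := by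
        rw [← hsk]
        refine Finset.sum_subset (subset_univ _) ?_
        intro x _ hx
        have : x ∈ univ.image f := by
          by_contra h
          exact hx (by rw [hT, Finset.mem_sdiff]; exact ⟨mem_univ _, h⟩)
        obtain ⟨i, _, rfl⟩ := Finset.mem_image.1 this
        rw [hs0, zero_smul]
      have hall := harc.rel_zero (by omega) T hTc _ hsT
      have hs00 : s = 0 := by
        ext x
        by_cases hx : x ∈ T
        · exact hall x hx
        · have : x ∈ univ.image f := by
            by_contra h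
            exact hx (by rw [hT, Finset.mem_sdiff]; exact ⟨mem_univ _, h⟩)
          obtain ⟨i, _, rfl⟩ := Finset.mem_image.1 this
          exact hs0 i
      exact Fintype.linearIndependent_iff.1 r.linearIndependent d hs00
    have hu := (Matrix.linearIndependent_cols_iff_isUnit).1 hcols
    exact (Matrix.linearIndependent_rows_iff_isUnit).2 hu
  obtain ⟨g', a, b, l, hl, hab0, hw'⟩ := H w hwarc
  have hbr := bracket_ne hk' hwarc (by omega) g' a b l hab0 hw'
  set m : ι → F := fun x => (l x * ∏ y ∈ univ.erase x, (a x * b y - b x * a y))⁻¹ with hm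
  have hm0 : ∀ x, m x ≠ 0 := by
    intro x
    refine inv_ne_zero (mul_ne_zero (hl x) (Finset.prod_ne_zero_iff.2 fun y hy => ?_))
    exact hbr x y (Ne.symm (ne_of_mem_erase hy))
  set Ψ : (ι → F) →ₗ[F] (Fin k → F) :=
    Fintype.linearCombination F (fun x => m x • nuh k (a x) (b x)) with hΨ
  have hΨa : ∀ r, Ψ r = ∑ x, r x • (m x • nuh k (a x) (b x)) := fun r => by
    rw [hΨ, Fintype.linearCombination_apply]
  have hker : LinearMap.ker Φ ≤ LinearMap.ker Ψ := by
    have hb : ∀ i, Ψ (r i : ι → F) = 0 := by
      intro i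
      ext j'
      rw [hΨa]
      simp only [Finset.sum_apply, Pi.smul_apply, smul_eq_mul, Pi.zero_apply]
      have h1 : ∀ x, (r i : ι → F) x = l x * ∑ j : Fin k', nuh k' (a x) (b x) j *
          g' (Pi.single j 1) i := by
        intro x
        have h2 : (r i : ι → F) x = w x i := rfl
        rw [h2, hw' x, Pi.smul_apply, smul_eq_mul]
        congr 1
        have h3 := LinearMap.pi_apply_eq_sum_univ ((LinearMap.proj i).comp
          (g' : (Fin k' → F) →ₗ[F] (Fin k' → F))) (nuh k' (a x) (b x))
        simp only [LinearMap.comp_apply, LinearMap.proj_apply, LinearEquiv.coe_coe,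
          smul_eq_mul] at h3
        have hsj : ∀ j : Fin k', (fun t => if j = t then (1 : F) else 0) = Pi.single j 1 := by
          intro j; ext t; simp [Pi.single_apply, eq_comm]
        simp only [hsj] at h3
        exact h3
      have h4 : ∀ x, (r i : ι → F) x * (m x * nuh k (a x) (b x) j') =
          ∑ j : Fin k', g' (Pi.single j 1) i *
            (a x ^ ((j : ℕ) + (j' : ℕ)) * b x ^ ((k' - 1 - (j : ℕ)) + (k - 1 - (j' : ℕ))) *
              (∏ y ∈ univ.erase x, (a x * b y - b x * a y))⁻¹) := by
        intro x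
        rw [h1, Finset.mul_sum, Finset.sum_mul]
        refine Finset.sum_congr rfl fun j _ => ?_
        simp only [nuh, hm]
        rw [pow_add, pow_add, mul_inv]
        have := mul_inv_cancel₀ (hl x)
        linear_combination (g' (Pi.single j 1) i * (a x ^ (j : ℕ) * a x ^ (j' : ℕ) *
          (b x ^ (k' - 1 - (j : ℕ)) * b x ^ (k - 1 - (j' : ℕ))) *
              (∏ y ∈ univ.erase x, (a x * b y - b x * a y))⁻¹)) * this
      simp only [h4]
      rw [Finset.sum_comm]
      refine Finset.sum_eq_zero fun j _ => ?_
      rw [← Finset.mul_sum, hom_lagrange a b hbr hab0, mul_zero]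
      have := j.2
      have := j'.2
      omega
    intro s hs
    have hs' := r.sum_repr ⟨s, hs⟩
    have hs2 : s = ∑ i, (r.repr ⟨s, hs⟩ i) • (r i : ι → F) := by
      have := congrArg Subtype.val hs'
      simp only [Submodule.coe_sum, Submodule.coe_smul] at this
      exact this.symm
    rw [LinearMap.mem_ker, hs2, map_sum]
    refine Finset.sum_eq_zero fun i _ => ?_
    rw [map_smul, hb, smul_zero]
  -- factorization
  obtain ⟨h, hh⟩ : ∃ h : (Fin k → F) →ₗ[F] (Fin k → F), ∀ s, h (Φ s) = Ψ s := by
    refine ⟨((LinearMap.ker Φ).liftQ Ψ hker).comp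
      (Φ.quotKerEquivOfSurjective hsurj).symm.toLinearMap, ?_⟩
    intro s
    have : (Φ.quotKerEquivOfSurjective hsurj).symm (Φ s) = Submodule.Quotient.mk s := by
      rw [LinearEquiv.symm_apply_eq]
      rfl
    simp only [LinearMap.comp_apply, LinearEquiv.coe_coe]
    rw [this]
    rfl
  have hhv : ∀ x, h (v x) = m x • nuh k (a x) (b x) := by
    intro x
    have h1 : Φ (Pi.single x 1) = v x := by
      rw [hΦa, Finset.sum_eq_single x]
      · simp
      · intro y _ hy; simp [hy]
      · intro hx; exact absurd (mem_univ x) hx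
    have h2 : Ψ (Pi.single x 1) = m x • nuh k (a x) (b x) := by
      rw [hΨa, Finset.sum_eq_single x]
      · simp
      · intro y _ hy; simp [hy]
      · intro hx; exact absurd (mem_univ x) hx
    rw [← h1, hh, h2]
  have hhsurj : Function.Surjective h := by
    rw [← LinearMap.range_eq_top]
    obtain ⟨f⟩ : Nonempty (Fin k ↪ ι) := Function.Embedding.nonempty_of_card_le (by simp; omega)
    have hdet : (Matrix.projVandermonde (fun i => a (f i)) (fun i => b (f i))).det ≠ 0 := by
      rw [Matrix.det_projVandermonde]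
      refine Finset.prod_ne_zero_iff.2 fun i _ => Finset.prod_ne_zero_iff.2 fun j hj => ?_
      have hij : f j ≠ f i := by
        intro h
        have h' := f.injective h
        rw [Finset.mem_Ioi] at hj
        exact absurd h' (ne_of_gt hj)
      intro h0
      exact hbr (f j) (f i) hij (by linear_combination h0)
    have hu : IsUnit (Matrix.projVandermonde (fun i => a (f i)) (fun i => b (f i))) := by
      rw [Matrix.isUnit_iff_isUnit_det, isUnit_iff_ne_zero]; exact hdet
    have hli : LinearIndependent F (fun i => nuh k (a (f i)) (b (f i))) := by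
      have := (Matrix.linearIndependent_rows_iff_isUnit).2 hu
      convert this using 1
      ext i j
      simp only [nuh, Matrix.row, Matrix.projVandermonde_apply, Fin.val_rev]
      congr 2
      omega
    have hsp := hli.span_eq_top_of_card_eq_finrank' (by simp)
    rw [eq_top_iff, ← hsp, Submodule.span_le]
    rintro _ ⟨i, rfl⟩
    refine ⟨(m (f i))⁻¹ • v (f i), ?_⟩
    rw [map_smul, hhv, smul_smul, inv_mul_cancel₀ (hm0 _), one_smul]
  have hhinj : Function.Injective h := LinearMap.injective_iff_surjective.2 hhsurj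
  refine ⟨(LinearEquiv.ofBijective h ⟨hhinj, hhsurj⟩).symm, a, b, m, hm0, hab0, ?_⟩
  intro x
  rw [← map_smul, LinearEquiv.eq_symm_apply]
  exact hhv x

end Helper3.RN
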