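import Mathlib
import Pool.Agent.Helper3.RN.Dual

/-! Project RN (MP_8a9ebc_co): points on a normal rational curve; rank two criterion, descent. -/

open Finset Matrix Polynomial

namespace Helper3.RN

open Pool.Agent.Helper31.RN

variable {F : Type*} [Field F]

/-- homogenisation of a product of linear factors -/
lemma hom_step (P : F[X]) (n : ℕ) (hP : P.natDegree ≤ n) (α β p q : F) :
    ∑ m ∈ range (n + 2), ((C α * X + C β) * P).coeff m * (p ^ m * q ^ (n + 1 - m))
      = (p * α + q * β) * ∑ m ∈ range (n + 1), P.coeff m * (p ^ m * q ^ (n - m)) := by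
  have h1 : ∀ m, ((C α * X + C β) * P).coeff m * (p ^ m * q ^ (n + 1 - m))
      = α * (X * P).coeff m * (p ^ m * q ^ (n + 1 - m)) +
        β * P.coeff m * (p ^ m * q ^ (n + 1 - m)) := by
    intro m
    rw [add_mul, mul_assoc, coeff_add, coeff_C_mul, coeff_C_mul]
    ring
  rw [Finset.sum_congr rfl (fun m _ => h1 m), Finset.sum_add_distrib, add_mul]
  congr 1
  · rw [Finset.sum_range_succ', Polynomial.coeff_X_mul_zero, Finset.mul_sum]
    simp only [mul_zero, zero_mul, add_zero]
    refine Finset.sum_congr rfl fun m _ => ?_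
    rw [Polynomial.coeff_X_mul, Nat.add_sub_add_right, pow_succ]
    ring
  · rw [Finset.sum_range_succ, Polynomial.coeff_eq_zero_of_natDegree_lt (by omega : P.natDegree < n + 1),
      Finset.mul_sum]
    simp only [mul_zero, zero_mul, add_zero]
    refine Finset.sum_congr rfl fun m hm => ?_
    have : m ≤ n := by simpa [Nat.lt_succ_iff] using hm
    rw [Nat.sub_add_comm this, pow_succ]
    ring

lemma hom_prod {κ : Type*} [DecidableEq κ] (s : Finset κ) (α β : κ → F) (p q : F) :
    ∑ m ∈ range (s.card + 1), (∏ j ∈ s, (C (α j) * X + C (β j))).coeff m *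
      (p ^ m * q ^ (s.card - m)) = ∏ j ∈ s, (p * α j + q * β j) := by
  induction s using Finset.induction_on with
  | empty => simp
  | insert i s hi ih =>
    rw [Finset.card_insert_of_notMem hi, Finset.prod_insert hi, Finset.prod_insert hi, hom_step _ s.card,
      ih]
    refine (Polynomial.natDegree_prod_le _ _).trans ?_
    refine (Finset.sum_le_card_nsmul _ _ 1 ?_).trans (by simp)
    intro j _
    exact Polynomial.natDegree_linear_le

/-- the linear map with `(p, q) ↦ ∏_{j ≠ i} (p α_j + q β_j)` -/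
noncomputable def crem {k : ℕ} (α β : Fin k → F) : (Fin k → F) →ₗ[F] (Fin k → F) :=
  (Matrix.of fun i m : Fin k => (∏ j ∈ univ.erase i, (C (α j) * X + C (β j))).coeff (m : ℕ)).mulVecLin

lemma crem_nuh {k : ℕ} (α β : Fin k → F) (p q : F) (i : Fin k) :
    crem α β (nuh k p q) i = ∏ j ∈ univ.erase i, (p * α j + q * β j) := by
  have hk : (univ.erase i : Finset (Fin k)).card = k - 1 := by
    rw [Finset.card_erase_of_mem (mem_univ i)]; simp
  rw [← hom_prod, hk, crem, Matrix.mulVecLin_apply, Matrix.mulVec, dotProduct]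
  simp only [Matrix.of_apply, nuh]
  have hk1 : k - 1 + 1 = k := by have := i.2; omega
  rw [hk1]
  exact Fin.sum_univ_eq_sum_range (fun m => (∏ j ∈ univ.erase i, (C (α j) * X + C (β j))).coeff m *
      (p ^ m * q ^ (k - 1 - m))) k

lemma crem_surj {k : ℕ} (α β : Fin k → F) (h : ∀ i j, i ≠ j → α i * β j - β i * α j ≠ 0) :
    Function.Surjective (crem α β) := by
  classical
  have h1 : ∀ i, crem α β (nuh k (β i) (- α i)) =
      (∏ j ∈ univ.erase i, (β i * α j + - α i * β j)) • Pi.single i 1 := by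
    intro i
    ext i'
    rw [crem_nuh, Pi.smul_apply, smul_eq_mul]
    by_cases hi : i' = i
    · rw [hi]; simp
    · rw [Pi.single_apply, if_neg hi, mul_zero]
      refine Finset.prod_eq_zero (i := i) (by simpa using Ne.symm hi) ?_
      ring
  have h2 : ∀ i, (∏ j ∈ univ.erase i, (β i * α j + - α i * β j)) ≠ 0 := by
    intro i
    refine Finset.prod_ne_zero_iff.2 fun j hj => ?_
    intro h0
    exact h i j (Ne.symm (ne_of_mem_erase hj)) (by linear_combination -h0)
  intro x
  refine ⟨∑ i, (x i * (∏ j ∈ univ.erase i, (β i * α j + - α i * β j))⁻¹) •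
    nuh k (β i) (- α i), ?_⟩
  rw [map_sum]
  ext i'
  rw [Finset.sum_apply, Finset.sum_eq_single i']
  · rw [map_smul, h1, Pi.smul_apply, Pi.smul_apply]
    simp only [Pi.single_eq_same, smul_eq_mul, mul_one]
    rw [mul_assoc, inv_mul_cancel₀ (h2 i'), mul_one]
  · intro i _ hi
    rw [map_smul, h1, Pi.smul_apply, Pi.smul_apply, Pi.single_apply, if_neg (Ne.symm hi)]
    simp
  · intro hi; exact absurd (mem_univ _) hi

variable {ι : Type*}

/-- the rank two criterion: the inverses of the coordinates with respect to `k` points of the family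
span a space of dimension two -/
theorem onNRC_of_rank_two {k : ℕ} (v : ι → Fin k → F) (f : Fin k → ι) (hf : Function.Injective f)
    (E : (Fin k → F) ≃ₗ[F] (Fin k → F)) (w : ι → Fin k → F) (hE : ∀ y, v y = E (w y))
    (hwf : ∀ i, w (f i) = Pi.single i 1) (hk : 1 ≤ k)
    (hw0 : ∀ y, (∀ i, f i ≠ y) → ∀ i, w y i ≠ 0) (α β : Fin k → F)
    (hαβ : ∀ i j, i ≠ j → α i * β j - β i * α j ≠ 0) (p q : ι → F)
    (hpq : ∀ y, (∀ i, f i ≠ y) → ∀ i, (w y i)⁻¹ = p y * α i + q y * β i) : OnNRC v := by
  classical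
  have hinj : Function.Injective (crem α β) :=
    LinearMap.injective_iff_surjective.2 (crem_surj α β hαβ)
  set G : (Fin k → F) ≃ₗ[F] (Fin k → F) := LinearEquiv.ofBijective (crem α β)
    ⟨hinj, crem_surj α β hαβ⟩ with hG
  have hGa : ∀ x, G x = crem α β x := fun x => rfl
  have key : ∀ y, ∃ a b l : F, l ≠ 0 ∧ (a ≠ 0 ∨ b ≠ 0) ∧ w y = l • G (nuh k a b) := by
    intro y
    by_cases hy : ∀ i, f i ≠ y
    · refine ⟨p y, q y, ∏ j, w y j, Finset.prod_ne_zero_iff.2 fun j _ => hw0 y hy j, ?_, ?_⟩
      · by_contra hcon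
        push Not at hcon
        have h1 := hpq y hy ⟨0, hk⟩
        rw [hcon.1, hcon.2, zero_mul, zero_mul, add_zero] at h1
        exact inv_ne_zero (hw0 y hy _) h1
      · ext i
        rw [Pi.smul_apply, hGa, crem_nuh, smul_eq_mul]
        have h1 : ∏ j ∈ univ.erase i, (p y * α j + q y * β j) = ∏ j ∈ univ.erase i, (w y j)⁻¹ :=
          Finset.prod_congr rfl fun j _ => (hpq y hy j).symm
        rw [h1, ← Finset.mul_prod_erase univ (w y) (mem_univ i), mul_assoc, ← Finset.prod_mul_distrib]
        rw [Finset.prod_eq_one, mul_one]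
        intro j _
        exact mul_inv_cancel₀ (hw0 y hy j)
    · push Not at hy
      obtain ⟨i, hi⟩ := hy
      have h2 : (∏ j ∈ univ.erase i, (β i * α j + - α i * β j)) ≠ 0 := by
        refine Finset.prod_ne_zero_iff.2 fun j hj => ?_
        intro h0
        exact hαβ i j (Ne.symm (ne_of_mem_erase hj)) (by linear_combination -h0)
      by_cases h01 : β i = 0 ∧ α i = 0
      · -- then k = 1
        have hk1 : ∀ j : Fin k, j = i := by
          intro j
          by_contra hj
          exact hαβ j i hj (by rw [h01.1, h01.2]; ring)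
        have hk2 : k = 1 := by
          by_contra hk2
          have h3 : 2 ≤ k := by omega
          have h4 := hk1 ⟨0, by omega⟩
          have h5 := hk1 ⟨1, by omega⟩
          rw [← h4] at h5
          simp at h5
        subst hk2
        have hi0 : i = 0 := Subsingleton.elim _ _
        refine ⟨1, 0, 1, one_ne_zero, Or.inl one_ne_zero, ?_⟩
        rw [← hi, hwf]
        ext j
        have hj0 : j = 0 := Subsingleton.elim _ _
        rw [Pi.smul_apply, hGa, crem_nuh, hi0, hj0]
        simp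
      · refine ⟨β i, - α i, (∏ j ∈ univ.erase i, (β i * α j + - α i * β j))⁻¹, inv_ne_zero h2, ?_, ?_⟩
        · by_contra hcon
          push Not at hcon
          exact h01 ⟨hcon.1, neg_eq_zero.1 hcon.2⟩
        · rw [← hi, hwf]
          ext i'
          rw [Pi.smul_apply, hGa, crem_nuh, smul_eq_mul]
          by_cases hii : i' = i
          · rw [hii, Pi.single_eq_same, inv_mul_cancel₀ h2]
          · rw [Pi.single_apply, if_neg hii]
            symm
            rw [mul_eq_zero]
            right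
            refine Finset.prod_eq_zero (i := i) (by simpa using Ne.symm hii) ?_
            ring
  choose a b l hl hab hwy using key
  refine ⟨G.trans E, a, b, l, hl, hab, ?_⟩
  intro y
  rw [hE, hwy, map_smul]
  rfl

/-- vectors `nuh` at distinct parameters are independent -/
lemma nuh_linInd {k : ℕ} (a b : Fin k → F) (h : ∀ i j, i ≠ j → a i * b j - b i * a j ≠ 0) :
    LinearIndependent F (fun i => nuh k (a i) (b i)) := by
  have hdet : (Matrix.projVandermonde a b).det ≠ 0 := by
    rw [Matrix.det_projVandermonde]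
    refine Finset.prod_ne_zero_iff.2 fun i _ => Finset.prod_ne_zero_iff.2 fun j hj => ?_
    rw [Finset.mem_Ioi] at hj
    intro h0
    exact h j i (ne_of_gt hj) (by linear_combination h0)
  have hu : IsUnit (Matrix.projVandermonde a b) := by
    rw [Matrix.isUnit_iff_isUnit_det, isUnit_iff_ne_zero]; exact hdet
  have := (Matrix.linearIndependent_rows_iff_isUnit).2 hu
  convert this using 1
  ext i j
  simp only [nuh, Matrix.row, Matrix.projVandermonde_apply, Fin.val_rev]
  congr 2
  omega

/-- interpolation formula for `nuh` -/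
lemma nuh_interp {k : ℕ} (a b : Fin k → F) (h : ∀ i j, i ≠ j → a i * b j - b i * a j ≠ 0)
    (hne : ∀ i, a i ≠ 0 ∨ b i ≠ 0) (p q : F) (hpq : ∀ i, p * b i - q * a i ≠ 0)
    (hpq0 : p ≠ 0 ∨ q ≠ 0) :
    nuh k p q = ∑ i, ((∏ j ∈ univ.erase i, (p * b j - q * a j)) *
      (∏ j ∈ univ.erase i, (a i * b j - b i * a j))⁻¹) • nuh k (a i) (b i) := by
  classical
  ext m
  have hk : 1 ≤ k := by have := m.2; omega
  have h1 := hom_lagrange (ι := Option (Fin k)) (fun x => x.elim p a) (fun x => x.elim q b)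
    (by
      intro x y hxy
      rcases x with _ | x <;> rcases y with _ | y
      · exact absurd rfl hxy
      · exact hpq y
      · intro h0; exact hpq x (by simp only [Option.elim] at h0; linear_combination -h0)
      · exact h x y (fun h' => hxy (by rw [h'])))
    (by
      intro x
      rcases x with _ | x
      · exact hpq0
      · exact hne x) (m : ℕ) (k - 1 - (m : ℕ)) (by
        simp only [Fintype.card_option, Fintype.card_fin]
        have := m.2
        omega)
  rw [Fintype.sum_option] at h1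
  simp only [Option.elim_none, Option.elim_some] at h1
  have hP : ∏ y ∈ (univ : Finset (Option (Fin k))).erase none, (p * (y.elim q b) - q * (y.elim p a))
      = ∏ j, (p * b j - q * a j) := by
    have : (univ : Finset (Option (Fin k))).erase none = univ.image some := by
      ext x; rcases x with _ | x <;> simp
    rw [this, Finset.prod_image (fun x _ y _ hxy => Option.some_injective _ hxy)]
    rfl
  have hQ : ∀ i, ∏ y ∈ (univ : Finset (Option (Fin k))).erase (some i),
      (a i * (y.elim q b) - b i * (y.elim p a))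
      = (a i * q - b i * p) * ∏ j ∈ univ.erase i, (a i * b j - b i * a j) := by
    intro i
    have : (univ : Finset (Option (Fin k))).erase (some i) = insert none ((univ.erase i).image some) := by
      ext x; rcases x with _ | x <;> simp
    rw [this, Finset.prod_insert (by simp), Finset.prod_image (fun x _ y _ hxy => Option.some_injective _ hxy)]
    rfl
  rw [hP] at h1
  simp only [hQ] at h1
  have hP0 : ∏ j, (p * b j - q * a j) ≠ 0 := Finset.prod_ne_zero_iff.2 fun j _ => hpq j
  have h2 : p ^ (m : ℕ) * q ^ (k - 1 - (m : ℕ)) = - (∏ j, (p * b j - q * a j)) *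
      ∑ i, a i ^ (m : ℕ) * b i ^ (k - 1 - (m : ℕ)) *
        ((a i * q - b i * p) * ∏ j ∈ univ.erase i, (a i * b j - b i * a j))⁻¹ := by
    have h3 := mul_inv_cancel₀ hP0
    linear_combination (∏ j, (p * b j - q * a j)) * h1 - (p ^ (m : ℕ) * q ^ (k - 1 - (m : ℕ))) * h3
  simp only [nuh, Finset.sum_apply, Pi.smul_apply, smul_eq_mul]
  rw [h2, Finset.mul_sum]
  refine Finset.sum_congr rfl fun i _ => ?_
  rw [← Finset.mul_prod_erase univ (fun j => p * b j - q * a j) (mem_univ i), mul_inv]
  have h4 : (a i * q - b i * p) * (a i * q - b i * p)⁻¹ = 1 := by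
    apply mul_inv_cancel₀
    intro h0
    exact hpq i (by linear_combination -h0)
  linear_combination ((∏ j ∈ univ.erase i, (p * b j - q * a j)) *
    (∏ j ∈ univ.erase i, (a i * b j - b i * a j))⁻¹ * (a i ^ (m : ℕ) * b i ^ (k - 1 - (m : ℕ)))) * h4

/-- coordinates of the points of a normal rational curve with respect to `k` of them -/
lemma coord_formula {k : ℕ} {v : ι → Fin k → F} (g : (Fin k → F) ≃ₗ[F] (Fin k → F))
    (a b l : ι → F) (hl : ∀ x, l x ≠ 0) (hne : ∀ x, a x ≠ 0 ∨ b x ≠ 0)
    (h : ∀ x, v x = l x • g (nuh k (a x) (b x)))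
    (hbr : ∀ x y, x ≠ y → a x * b y - b x * a y ≠ 0) (f : Fin k → ι) (hf : Function.Injective f)
    (y : ι) (hy : ∀ i, f i ≠ y) (ω : Fin k → F) (hω : v y = ∑ i, ω i • v (f i)) :
    ∀ i, ω i = l y * (l (f i))⁻¹ * ((∏ j ∈ univ.erase i, (a y * b (f j) - b y * a (f j))) *
      (∏ j ∈ univ.erase i, (a (f i) * b (f j) - b (f i) * a (f j)))⁻¹) := by
  classical
  have hbf : ∀ i j : Fin k, i ≠ j → a (f i) * b (f j) - b (f i) * a (f j) ≠ 0 :=
    fun i j hij => hbr _ _ (fun h' => hij (hf h'))
  have hli := nuh_linInd (fun i => a (f i)) (fun i => b (f i)) hbf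
  have h1 := nuh_interp (fun i => a (f i)) (fun i => b (f i)) hbf (fun i => hne _) (a y) (b y)
    (fun i => hbr _ _ (Ne.symm (hy i))) (hne y)
  have h2 : g (∑ i, (ω i * l (f i)) • nuh k (a (f i)) (b (f i))) =
      g (∑ i, (l y * ((∏ j ∈ univ.erase i, (a y * b (f j) - b y * a (f j))) *
      (∏ j ∈ univ.erase i, (a (f i) * b (f j) - b (f i) * a (f j)))⁻¹)) •
        nuh k (a (f i)) (b (f i))) := by
    have e1 : g (∑ i, (ω i * l (f i)) • nuh k (a (f i)) (b (f i))) = v y := by
      rw [hω, map_sum]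
      refine Finset.sum_congr rfl fun i _ => ?_
      rw [map_smul, h (f i), smul_smul]
    rw [e1, h y]
    conv_lhs => rw [h1]
    rw [map_sum, map_sum, Finset.smul_sum]
    refine Finset.sum_congr rfl fun i _ => ?_
    rw [map_smul, map_smul, smul_smul]
  have h3 := g.injective h2
  have h4 : ∑ i, ((ω i * l (f i)) - (l y * ((∏ j ∈ univ.erase i, (a y * b (f j) - b y * a (f j))) *
      (∏ j ∈ univ.erase i, (a (f i) * b (f j) - b (f i) * a (f j)))⁻¹))) •
        nuh k (a (f i)) (b (f i)) = 0 := by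
    simp only [sub_smul, Finset.sum_sub_distrib]
    rw [sub_eq_zero]
    exact h3
  intro i
  have h5 := Fintype.linearIndependent_iff.1 hli _ h4 i
  have h6 := mul_inv_cancel₀ (hl (f i))
  linear_combination (l (f i))⁻¹ * h5 - (ω i) * h6

variable [Fintype ι]

/-- Descent: a normal rational curve over an extension field that contains an arc defined over the
small field (with at least `k + 2` points) is defined over the small field. -/
theorem descent {K : Type*} [Field K] [Algebra F K] {k : ℕ} (hk : 2 ≤ k) (v : ι → Fin k → F)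
    (harc : Arc v) (harcK : Arc (fun i => bc K (v i))) (hcard : k + 2 ≤ Fintype.card ι)
    (H : OnNRC (fun i => bc K (v i))) : OnNRC v := by
  classical
  obtain ⟨g, a, b, l, hl, hne, h⟩ := H
  have hbr := bracket_ne hk harcK (by omega) g a b l hne h
  have : Nonempty (Fin k) := ⟨⟨0, by omega⟩⟩
  obtain ⟨f⟩ : Nonempty (Fin k ↪ ι) := Function.Embedding.nonempty_of_card_le (by simp; omega)
  have hf := f.injective
  have hli := harc f hf
  set B := basisOfLinearIndependentOfCardEqFinrank hli (by simp) with hB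
  have hBi : ∀ i, B i = v (f i) := fun i => by
    rw [hB, coe_basisOfLinearIndependentOfCardEqFinrank]
  set E : (Fin k → F) ≃ₗ[F] (Fin k → F) := B.equivFun.symm with hE
  set w : ι → Fin k → F := fun y => B.equivFun (v y) with hw
  have hwsum : ∀ y, v y = ∑ i, w y i • v (f i) := by
    intro y
    have := B.sum_equivFun (v y)
    conv_lhs => rw [← this]
    refine Finset.sum_congr rfl fun i _ => ?_
    rw [hBi]
  have hwf : ∀ i, w (f i) = Pi.single i 1 := by
    intro i
    ext j
    simp only [hw]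
    rw [← hBi, Module.Basis.equivFun_self, Pi.single_apply]
    simp [eq_comm]
  have hwK : ∀ y, bc K (v y) = ∑ i, algebraMap F K (w y i) • bc K (v (f i)) := by
    intro y
    ext j
    have := congrFun (hwsum y) j
    simp only [Finset.sum_apply, Pi.smul_apply, smul_eq_mul, bc] at this ⊢
    rw [this]
    simp only [map_sum, map_mul]
  -- abbreviations
  set br : ι → ι → K := fun x y => a x * b y - b x * a y with hbrd
  have hfor : ∀ y, (∀ i, f i ≠ y) → ∀ i, algebraMap F K (w y i) = l y * (l (f i))⁻¹ *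
      ((∏ j ∈ univ.erase i, br y (f j)) * (∏ j ∈ univ.erase i, br (f i) (f j))⁻¹) :=
    fun y hy => coord_formula (v := fun i => bc K (v i)) g a b l hl hne h hbr f hf y hy _ (hwK y)
  have hbrP : ∀ y, (∀ i, f i ≠ y) → ∀ s : Finset (Fin k), ∏ j ∈ s, br y (f j) ≠ 0 := by
    intro y hy s
    exact Finset.prod_ne_zero_iff.2 fun j _ => hbr _ _ (Ne.symm (hy j))
  have hbrQ : ∀ i, ∏ j ∈ univ.erase i, br (f i) (f j) ≠ 0 := by
    intro i
    refine Finset.prod_ne_zero_iff.2 fun j hj => hbr _ _ ?_
    intro h'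
    exact (ne_of_mem_erase hj) (hf h').symm
  have hw0 : ∀ y, (∀ i, f i ≠ y) → ∀ i, w y i ≠ 0 := by
    intro y hy i h0
    have := hfor y hy i
    rw [h0, map_zero] at this
    exact mul_ne_zero (mul_ne_zero (hl y) (inv_ne_zero (hl (f i)))) (mul_ne_zero (hbrP y hy _)
      (inv_ne_zero (hbrQ i))) this.symm
  set Cc : Fin k → K := fun i => l (f i) * ∏ j ∈ univ.erase i, br (f i) (f j) with hCc
  set M : ι → K := fun y => (l y * ∏ j, br y (f j))⁻¹ with hM
  have hCc0 : ∀ i, Cc i ≠ 0 := fun i => mul_ne_zero (hl _) (hbrQ i)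
  have hM0 : ∀ y, (∀ i, f i ≠ y) → M y ≠ 0 := fun y hy => inv_ne_zero (mul_ne_zero (hl y) (hbrP y hy _))
  have hinv : ∀ y, (∀ i, f i ≠ y) → ∀ i, algebraMap F K ((w y i)⁻¹) = Cc i * M y * br y (f i) := by
    intro y hy i
    rw [map_inv₀, hfor y hy i]
    simp only [hCc, hM]
    rw [← Finset.mul_prod_erase univ (fun j => br y (f j)) (mem_univ i)]
    have h1 := hbrP y hy (univ.erase i)
    have h2 := hbrQ i
    have h3 := hl y
    have h4 := hl (f i)
    have h5 : br y (f i) ≠ 0 := hbr _ _ (Ne.symm (hy i))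
    field_simp
  -- two points outside
  obtain ⟨y1, hy1, y2, hy2, hy12⟩ : ∃ y1 ∈ univ \ univ.image f, ∃ y2 ∈ univ \ univ.image f,
      y1 ≠ y2 := by
    have hc : 1 < (univ \ univ.image f : Finset ι).card := by
      rw [Finset.card_sdiff_of_subset (subset_univ _), Finset.card_univ,
          Finset.card_image_of_injective _ hf, Finset.card_univ, Fintype.card_fin]
      omega
    exact Finset.one_lt_card.1 hc
  have hout : ∀ y, y ∈ univ \ univ.image f → ∀ i, f i ≠ y := by
    intro y hy i hi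
    rw [Finset.mem_sdiff] at hy
    exact hy.2 (Finset.mem_image.2 ⟨i, mem_univ _, hi⟩)
  have ho1 := hout y1 hy1
  have ho2 := hout y2 hy2
  have hDK : ∀ y y', (∀ i, f i ≠ y) → (∀ i, f i ≠ y') → ∀ i j, algebraMap F K
      ((w y i)⁻¹ * (w y' j)⁻¹ - (w y j)⁻¹ * (w y' i)⁻¹) =
      Cc i * Cc j * M y * M y' * (br y y' * br (f i) (f j)) := by
    intro y y' hy hy' i j
    rw [map_sub, map_mul, map_mul, hinv y hy, hinv y hy, hinv y' hy', hinv y' hy']
    simp only [hbrd]
    ring
  have hD : ∀ i j, i ≠ j → (w y1 i)⁻¹ * (w y2 j)⁻¹ - (w y2 i)⁻¹ * (w y1 j)⁻¹ ≠ 0 := by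
    intro i j hij h0
    have h1 := hDK y1 y2 ho1 ho2 i j
    have h2 : (w y1 i)⁻¹ * (w y2 j)⁻¹ - (w y1 j)⁻¹ * (w y2 i)⁻¹ = 0 := by
      linear_combination h0
    rw [h2, map_zero] at h1
    refine mul_ne_zero (mul_ne_zero (mul_ne_zero (mul_ne_zero (hCc0 i) (hCc0 j)) (hM0 y1 ho1))
      (hM0 y2 ho2)) (mul_ne_zero (hbr _ _ hy12) (hbr _ _ (fun h' => hij (hf h')))) h1.symm
  set i0 : Fin k := ⟨0, by omega⟩ with hi0
  set i1 : Fin k := ⟨1, by omega⟩ with hi1
  have hi01 : i0 ≠ i1 := by
    intro h'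
    have := congrArg Fin.val h'
    simp [hi0, hi1] at this
  set Δ : F := (w y1 i0)⁻¹ * (w y2 i1)⁻¹ - (w y1 i1)⁻¹ * (w y2 i0)⁻¹ with hΔ
  have hΔ0 : Δ ≠ 0 := by
    intro h0
    exact hD i0 i1 hi01 (by rw [hΔ] at h0; linear_combination h0)
  refine onNRC_of_rank_two v f hf E w (fun y => ?_) hwf (by omega) hw0
    (fun i => (w y1 i)⁻¹) (fun i => (w y2 i)⁻¹) hD
    (fun y => ((w y i0)⁻¹ * (w y2 i1)⁻¹ - (w y i1)⁻¹ * (w y2 i0)⁻¹) / Δ)
    (fun y => ((w y1 i0)⁻¹ * (w y i1)⁻¹ - (w y1 i1)⁻¹ * (w y i0)⁻¹) / Δ) ?_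
  · simp only [hE, hw, LinearEquiv.symm_apply_apply]
  · intro y hy m
    have h1 : (w y m)⁻¹ * Δ = ((w y i0)⁻¹ * (w y2 i1)⁻¹ - (w y i1)⁻¹ * (w y2 i0)⁻¹) * (w y1 m)⁻¹
        + ((w y1 i0)⁻¹ * (w y i1)⁻¹ - (w y1 i1)⁻¹ * (w y i0)⁻¹) * (w y2 m)⁻¹ := by
      apply (algebraMap F K).injective
      rw [map_add, map_mul, map_mul, map_mul, hΔ, hDK y1 y2 ho1 ho2, hDK y y2 hy ho2,
        hDK y1 y ho1 hy, hinv y hy, hinv y1 ho1, hinv y2 ho2]
      simp only [hbrd]
      ring
    field_simp
    field_simp at h1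
    linear_combination h1

end Helper3.RN
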