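import Mathlib
import Pool.Agent.Helper3.RN.Segre
import Pool.Agent.Helper31.RN.Defs

/-! Section 0.1 of project RN (MP_8a9ebc_co): the Segre system of a q-arc, in the language of
`Pool.Agent.Helper31.RN.Defs`. -/

open Finset Matrix Polynomial

namespace Helper3.RN

open Pool.Agent.Helper31.RN

theorem exists_sys {F : Type*} [Field F] [Fintype F] [DecidableEq F] {K : Type*} [Field K]
    [Algebra F K] {ι : Type*} [Fintype ι] [DecidableEq ι] {k : ℕ} (hk : 3 ≤ k)
    (v : ι → Fin k → F)
    (harc : ∀ f : Fin k → ι, Function.Injective f → LinearIndependent F (fun i => v (f i)))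
    (hcard : Fintype.card ι = Fintype.card F) (hq : 2 * k ≤ Fintype.card F)
    (hodd : Odd (Fintype.card F)) :
    ∃ (D : Finset ι → K[X]) (c : Finset ι → K), Sys k Finset.univ (fun i => bc K (v i)) D c := by
  classical
  obtain ⟨n, rfl⟩ : ∃ n, k = n + 2 := ⟨k - 2, by omega⟩
  obtain ⟨m, hm⟩ : ∃ m, Fintype.card F = 2 * n + 3 + (m + 1) :=
    ⟨Fintype.card F - (2 * n + 4), by omega⟩
  have hev : Even (m + 1) := by
    obtain ⟨r, hr⟩ := hodd
    exact ⟨r - n - 1, by omega⟩
  obtain ⟨c₀, D₀, hc₀, hD0, hDne, hseg⟩ := exists_system v harc hcard (by omega) hm hev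
  set D : Finset ι → K[X] := fun B => ∑ j : Fin (n + 2), C (algebraMap F K (D₀ B j)) * X ^ (j : ℕ)
    with hD
  have hcoeff : ∀ B (j : Fin (n + 2)), (D B).coeff (j : ℕ) = algebraMap F K (D₀ B j) := by
    intro B j
    rw [hD]
    simp only [Polynomial.finsetSum_coeff, Polynomial.coeff_C_mul, Polynomial.coeff_X_pow]
    rw [Finset.sum_eq_single j]
    · simp
    · intro i _ hij
      rw [if_neg, mul_zero]
      intro h
      exact hij (Fin.ext h.symm)
    · intro h; exact absurd (mem_univ _) h
  have hdeg : ∀ B, (D B).degree < ((n + 2 : ℕ) : WithBot ℕ) := by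
    intro B
    rw [hD]
    refine degree_sum_lt' _ _ fun i _ => ?_
    refine lt_of_le_of_lt (Polynomial.degree_C_mul_X_pow_le _ _) ?_
    exact_mod_cast i.2
  have hevd : ∀ B (w : Fin (n + 2) → K), ev w (D B)
      = (fun j => algebraMap F K (D₀ B j)) ⬝ᵥ w := by
    intro B w
    simp only [ev, dotProduct, smul_eq_mul]
    refine Finset.sum_congr rfl fun i _ => ?_
    rw [hcoeff]
  have hevb : ∀ B y, ev (bc K (v y)) (D B) = algebraMap F K (D₀ B ⬝ᵥ v y) := by
    intro B y
    rw [hevd]
    simp only [dotProduct, bc, map_sum, map_mul]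
  refine ⟨D, fun B => algebraMap F K (c₀ B), ?_⟩
  refine { deg := fun B => hdeg B, zero := ?_, ne := ?_, cne := ?_, seg := ?_ }
  · intro B _ hB b hb
    rw [hevb, hD0 B (by omega) b hb, map_zero]
  · intro B _ hB z hz
    rw [hevb, Ne, map_eq_zero]
    exact hDne B (by omega) z (by simpa using hz)
  · intro B _ hB
    rw [Ne, map_eq_zero]
    exact hc₀ B (by omega)
  · intro G _ hG A hAG hA
    have hA' : A.card = n := by omega
    -- coefficientwise
    ext j
    rw [Polynomial.finsetSum_coeff, Polynomial.coeff_zero]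
    by_cases hj : j < n + 2
    · have hEc : Fintype.card (univ \ G : Finset ι) = m := by
        rw [Fintype.card_coe, Finset.card_sdiff_of_subset (subset_univ G), Finset.card_univ, hcard]
        omega
      obtain ⟨e⟩ : Nonempty (Fin m ≃ (univ \ G : Finset ι)) :=
        ⟨(Fintype.equivFinOfCardEq hEc).symm⟩
      have h1 := hseg K A hA' (Matrix.vecCons (Pi.single (⟨j, hj⟩ : Fin (n + 2)) (1 : K))
        (fun i => bc K (v (e i))))
      have h2 : ∀ y ∈ univ \ A, algebraMap F K (c₀ (insert y A)) * ∏ i : Fin (m + 1),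
          ((fun j => algebraMap F K (D₀ (insert y A) j)) ⬝ᵥ
            (Matrix.vecCons (Pi.single (⟨j, hj⟩ : Fin (n + 2)) (1 : K))
              (fun i => bc K (v (e i))) : Fin (m + 1) → Fin (n + 2) → K) i)
          = algebraMap F K (c₀ (insert y A)) * (∏ g ∈ univ \ G, ev (bc K (v g)) (D (insert y A))) *
            (D (insert y A)).coeff j := by
        intro y _
        rw [Fin.prod_univ_succ]
        simp only [Matrix.cons_val_zero, Matrix.cons_val_succ, dotProduct_single, mul_one]
        have h3 : ∏ g ∈ univ \ G, ev (bc K (v g)) (D (insert y A))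
            = ∏ i : Fin m, ((fun j => algebraMap F K (D₀ (insert y A) j)) ⬝ᵥ bc K (v (e i))) := by
          rw [← Finset.prod_coe_sort, ← Equiv.prod_comp e]
          refine Finset.prod_congr rfl fun i _ => ?_
          rw [hevd]
        have h4 := hcoeff (insert y A) ⟨j, hj⟩
        simp only at h4
        rw [h3, h4]
        ring
      rw [Finset.sum_congr rfl h2] at h1
      rw [← h1]
      have hsub : G \ A ⊆ univ \ A := Finset.sdiff_subset_sdiff (subset_univ _) (Finset.Subset.refl _)
      rw [← Finset.sum_subset hsub]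
      · refine Finset.sum_congr rfl fun y _ => ?_
        rw [Polynomial.coeff_C_mul]
      · intro y hy hy'
        have hyG : y ∉ G := by
          intro h
          apply hy'
          rw [Finset.mem_sdiff] at hy ⊢
          exact ⟨h, hy.2⟩
        have hyA : y ∉ A := by
          rw [Finset.mem_sdiff] at hy; exact hy.2
        have : ev (bc K (v y)) (D (insert y A)) = 0 := by
          rw [hevb, hD0 _ (by rw [Finset.card_insert_of_notMem hyA]; omega) y
            (Finset.mem_insert_self _ _), map_zero]
        rw [Finset.prod_eq_zero (i := y) (by simpa using hyG) this]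
        ring
    · refine Finset.sum_eq_zero fun y _ => ?_
      rw [Polynomial.coeff_C_mul, Polynomial.coeff_eq_zero_of_degree_lt, mul_zero]
      refine lt_of_lt_of_le (hdeg _) ?_
      exact_mod_cast (not_lt.1 hj)

end Helper3.RN
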